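import Mathlib

/-! A counting lemma for `K_4`: kernels close in cut norm to others. -/

set_option autoImplicit false

namespace Pool.Agent.U570.AF

open Finset

variable {α : Type}

/-- `Δ` has small cut norm -/
def CutB (A B : Finset α) (Δ : α → α → ℝ) (η : ℝ) : Prop :=
  ∀ u u' : α → ℝ, (∀ v, |u v| ≤ 1) → (∀ v, |u' v| ≤ 1) →
    |∑ v ∈ A, ∑ w ∈ B, Δ v w * (u v * u' w)| ≤ η * (A.card * B.card)

theorem base (A B C D : Finset α) (Δ : α → α → ℝ) (η : ℝ) (h : CutB A B Δ η)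
    (u u' : α → α → α → ℝ) (e : α → α → ℝ) (hu : ∀ x c d, |u x c d| ≤ 1) (hu' : ∀ x c d, |u' x c d| ≤ 1)
    (he : ∀ c d, |e c d| ≤ 1) :
    |∑ p ∈ C ×ˢ D ×ˢ A ×ˢ B, Δ p.2.2.1 p.2.2.2 * (u p.2.2.1 p.1 p.2.1 * u' p.2.2.2 p.1 p.2.1) *
      e p.1 p.2.1| ≤ η * (A.card * B.card * C.card * D.card) := by
  have h0 : ∀ c d, |∑ a ∈ A, ∑ b ∈ B, Δ a b * (u a c d * u' b c d) * e c d| ≤
      η * (A.card * B.card) := by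
    intro c d
    simp_rw [← sum_mul]
    rw [abs_mul]
    refine le_trans (mul_le_of_le_one_right (abs_nonneg _) (he c d)) ?_
    exact h (fun a => u a c d) (fun b => u' b c d) (fun a => hu a c d) (fun b => hu' b c d)
  rw [sum_product]
  refine (abs_sum_le_sum_abs _ _).trans ?_
  calc ∑ c ∈ C, |∑ y ∈ D ×ˢ A ×ˢ B, Δ y.2.1 y.2.2 * (u y.2.1 c y.1 * u' y.2.2 c y.1) * e c y.1| ≤
      ∑ _c ∈ C, (D.card : ℝ) * (η * (A.card * B.card)) := by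
        refine sum_le_sum fun c _ => ?_
        rw [sum_product]
        refine (abs_sum_le_sum_abs _ _).trans ?_
        calc ∑ d ∈ D, |∑ y ∈ A ×ˢ B, Δ y.1 y.2 * (u y.1 c d * u' y.2 c d) * e c d| ≤
            ∑ _d ∈ D, (η * (A.card * B.card)) := by
              refine sum_le_sum fun d _ => ?_
              rw [sum_product]
              exact h0 c d
          _ = _ := by rw [sum_const, nsmul_eq_mul]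
    _ = _ := by rw [sum_const, nsmul_eq_mul]; ring

theorem abs_le_one_of {x : ℝ} (h0 : 0 ≤ x) (h1 : x ≤ 1) : |x| ≤ 1 := by
  rw [abs_of_nonneg h0]; exact h1

theorem mul01 {x y : ℝ} (hx : 0 ≤ x ∧ x ≤ 1) (hy : 0 ≤ y ∧ y ≤ 1) : 0 ≤ x * y ∧ x * y ≤ 1 :=
  ⟨mul_nonneg hx.1 hy.1, mul_le_one₀ hx.2 hy.1 hy.2⟩

/-- values in the unit interval -/
def U01 (f : α → α → ℝ) : Prop := ∀ x y, 0 ≤ f x y ∧ f x y ≤ 1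

theorem sum_perm4 (V0 V1 V2 V3 : Finset α) (f : α × α × α × α → ℝ) :
    (∑ p ∈ V0 ×ˢ V1 ×ˢ V2 ×ˢ V3, f p = ∑ q ∈ V2 ×ˢ V3 ×ˢ V0 ×ˢ V1, f (q.2.2.1, q.2.2.2, q.1, q.2.1)) ∧
    (∑ p ∈ V0 ×ˢ V1 ×ˢ V2 ×ˢ V3, f p = ∑ q ∈ V1 ×ˢ V3 ×ˢ V0 ×ˢ V2, f (q.2.2.1, q.1, q.2.2.2, q.2.1)) ∧
    (∑ p ∈ V0 ×ˢ V1 ×ˢ V2 ×ˢ V3, f p = ∑ q ∈ V1 ×ˢ V2 ×ˢ V0 ×ˢ V3, f (q.2.2.1, q.1, q.2.1, q.2.2.2)) ∧
    (∑ p ∈ V0 ×ˢ V1 ×ˢ V2 ×ˢ V3, f p = ∑ q ∈ V0 ×ˢ V3 ×ˢ V1 ×ˢ V2, f (q.1, q.2.2.1, q.2.2.2, q.2.1)) ∧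
    (∑ p ∈ V0 ×ˢ V1 ×ˢ V2 ×ˢ V3, f p = ∑ q ∈ V0 ×ˢ V2 ×ˢ V1 ×ˢ V3, f (q.1, q.2.2.1, q.2.1, q.2.2.2)) ∧
    (∑ p ∈ V0 ×ˢ V1 ×ˢ V2 ×ˢ V3, f p = ∑ q ∈ V0 ×ˢ V1 ×ˢ V2 ×ˢ V3, f (q.1, q.2.1, q.2.2.1, q.2.2.2)) := by
  refine ⟨?_, ?_, ?_, ?_, ?_, ?_⟩
  · refine sum_nbij' (fun p => (p.2.2.1, p.2.2.2, p.1, p.2.1)) (fun q => (q.2.2.1, q.2.2.2, q.1, q.2.1))
      ?_ ?_ ?_ ?_ ?_ <;> simp [mem_product] <;> tauto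
  · refine sum_nbij' (fun p => (p.2.1, p.2.2.2, p.1, p.2.2.1)) (fun q => (q.2.2.1, q.1, q.2.2.2, q.2.1))
      ?_ ?_ ?_ ?_ ?_ <;> simp [mem_product] <;> tauto
  · refine sum_nbij' (fun p => (p.2.1, p.2.2.1, p.1, p.2.2.2)) (fun q => (q.2.2.1, q.1, q.2.1, q.2.2.2))
      ?_ ?_ ?_ ?_ ?_ <;> simp [mem_product] <;> tauto
  · refine sum_nbij' (fun p => (p.1, p.2.2.2, p.2.1, p.2.2.1)) (fun q => (q.1, q.2.2.1, q.2.2.2, q.2.1))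
      ?_ ?_ ?_ ?_ ?_ <;> simp [mem_product] <;> tauto
  · refine sum_nbij' (fun p => (p.1, p.2.2.1, p.2.1, p.2.2.2)) (fun q => (q.1, q.2.2.1, q.2.1, q.2.2.2))
      ?_ ?_ ?_ ?_ ?_ <;> simp [mem_product] <;> tauto
  · exact sum_congr rfl fun p _ => rfl

/-- the counting lemma -/
theorem count4 (V0 V1 V2 V3 : Finset α) (η : ℝ)
    (H01 H02 H03 H12 H13 H23 G01 G02 G03 G12 G13 G23 : α → α → ℝ)
    (h01 : U01 H01) (h02 : U01 H02) (h03 : U01 H03) (h12 : U01 H12) (h13 : U01 H13) (h23 : U01 H23)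
    (g01 : U01 G01) (g02 : U01 G02) (g03 : U01 G03) (g12 : U01 G12) (g13 : U01 G13) (g23 : U01 G23)
    (c01 : CutB V0 V1 (fun x y => H01 x y - G01 x y) η) (c02 : CutB V0 V2 (fun x y => H02 x y - G02 x y) η)
    (c03 : CutB V0 V3 (fun x y => H03 x y - G03 x y) η) (c12 : CutB V1 V2 (fun x y => H12 x y - G12 x y) η)
    (c13 : CutB V1 V3 (fun x y => H13 x y - G13 x y) η) (c23 : CutB V2 V3 (fun x y => H23 x y - G23 x y) η) :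
    |∑ p ∈ V0 ×ˢ V1 ×ˢ V2 ×ˢ V3, (H01 p.1 p.2.1 * H02 p.1 p.2.2.1 * H03 p.1 p.2.2.2 *
        H12 p.2.1 p.2.2.1 * H13 p.2.1 p.2.2.2 * H23 p.2.2.1 p.2.2.2) -
      ∑ p ∈ V0 ×ˢ V1 ×ˢ V2 ×ˢ V3, (G01 p.1 p.2.1 * G02 p.1 p.2.2.1 * G03 p.1 p.2.2.2 *
        G12 p.2.1 p.2.2.1 * G13 p.2.1 p.2.2.2 * G23 p.2.2.1 p.2.2.2)| ≤
      6 * η * (V0.card * V1.card * V2.card * V3.card) := by
  obtain ⟨N, hN⟩ : ∃ N : ℝ, N = V0.card * V1.card * V2.card * V3.card := ⟨_, rfl⟩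
  have one01 : (0 : ℝ) ≤ 1 ∧ (1 : ℝ) ≤ 1 := ⟨zero_le_one, le_rfl⟩
  have ab : ∀ {x : ℝ}, 0 ≤ x ∧ x ≤ 1 → |x| ≤ 1 := fun h => abs_le_one_of h.1 h.2
  -- the six differences
  have t1 : |∑ p ∈ V0 ×ˢ V1 ×ˢ V2 ×ˢ V3, ((H01 p.1 p.2.1 - G01 p.1 p.2.1) * H02 p.1 p.2.2.1 *
      H03 p.1 p.2.2.2 * H12 p.2.1 p.2.2.1 * H13 p.2.1 p.2.2.2 * H23 p.2.2.1 p.2.2.2)| ≤ η * N := by
    rw [(sum_perm4 V0 V1 V2 V3 _).1]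
    have h := base V0 V1 V2 V3 (fun x y => H01 x y - G01 x y) η c01 (fun a c d => H02 a c * H03 a d)
      (fun b c d => H12 b c * H13 b d) (fun c d => H23 c d)
      (fun a c d => ab (mul01 (h02 a c) (h03 a d))) (fun b c d => ab (mul01 (h12 b c) (h13 b d)))
      (fun c d => ab (h23 c d))
    rw [hN]
    refine le_trans (le_of_eq ?_) (h.trans (le_of_eq (by ring)))
    congr 1
    exact sum_congr rfl fun q _ => by ring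
  have t2 : |∑ p ∈ V0 ×ˢ V1 ×ˢ V2 ×ˢ V3, (G01 p.1 p.2.1 * (H02 p.1 p.2.2.1 - G02 p.1 p.2.2.1) *
      H03 p.1 p.2.2.2 * H12 p.2.1 p.2.2.1 * H13 p.2.1 p.2.2.2 * H23 p.2.2.1 p.2.2.2)| ≤ η * N := by
    rw [(sum_perm4 V0 V1 V2 V3 _).2.1]
    have h := base V0 V2 V1 V3 (fun x y => H02 x y - G02 x y) η c02 (fun a c d => G01 a c * H03 a d)
      (fun b c d => H12 c b * H23 b d) (fun c d => H13 c d)
      (fun a c d => ab (mul01 (g01 a c) (h03 a d))) (fun b c d => ab (mul01 (h12 c b) (h23 b d)))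
      (fun c d => ab (h13 c d))
    rw [hN]
    refine le_trans (le_of_eq ?_) (h.trans (le_of_eq (by ring)))
    congr 1
    exact sum_congr rfl fun q _ => by ring
  have t3 : |∑ p ∈ V0 ×ˢ V1 ×ˢ V2 ×ˢ V3, (G01 p.1 p.2.1 * G02 p.1 p.2.2.1 *
      (H03 p.1 p.2.2.2 - G03 p.1 p.2.2.2) * H12 p.2.1 p.2.2.1 * H13 p.2.1 p.2.2.2 *
      H23 p.2.2.1 p.2.2.2)| ≤ η * N := by
    rw [(sum_perm4 V0 V1 V2 V3 _).2.2.1]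
    have h := base V0 V3 V1 V2 (fun x y => H03 x y - G03 x y) η c03 (fun a c d => G01 a c * G02 a d)
      (fun b c d => H13 c b * H23 d b) (fun c d => H12 c d)
      (fun a c d => ab (mul01 (g01 a c) (g02 a d))) (fun b c d => ab (mul01 (h13 c b) (h23 d b)))
      (fun c d => ab (h12 c d))
    rw [hN]
    refine le_trans (le_of_eq ?_) (h.trans (le_of_eq (by ring)))
    congr 1
    exact sum_congr rfl fun q _ => by ring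
  have t4 : |∑ p ∈ V0 ×ˢ V1 ×ˢ V2 ×ˢ V3, (G01 p.1 p.2.1 * G02 p.1 p.2.2.1 * G03 p.1 p.2.2.2 *
      (H12 p.2.1 p.2.2.1 - G12 p.2.1 p.2.2.1) * H13 p.2.1 p.2.2.2 * H23 p.2.2.1 p.2.2.2)| ≤
      η * N := by
    rw [(sum_perm4 V0 V1 V2 V3 _).2.2.2.1]
    have h := base V1 V2 V0 V3 (fun x y => H12 x y - G12 x y) η c12 (fun a c d => G01 c a * H13 a d)
      (fun b c d => G02 c b * H23 b d) (fun c d => G03 c d)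
      (fun a c d => ab (mul01 (g01 c a) (h13 a d))) (fun b c d => ab (mul01 (g02 c b) (h23 b d)))
      (fun c d => ab (g03 c d))
    rw [hN]
    refine le_trans (le_of_eq ?_) (h.trans (le_of_eq (by ring)))
    congr 1
    exact sum_congr rfl fun q _ => by ring
  have t5 : |∑ p ∈ V0 ×ˢ V1 ×ˢ V2 ×ˢ V3, (G01 p.1 p.2.1 * G02 p.1 p.2.2.1 * G03 p.1 p.2.2.2 *
      G12 p.2.1 p.2.2.1 * (H13 p.2.1 p.2.2.2 - G13 p.2.1 p.2.2.2) * H23 p.2.2.1 p.2.2.2)| ≤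
      η * N := by
    rw [(sum_perm4 V0 V1 V2 V3 _).2.2.2.2.1]
    have h := base V1 V3 V0 V2 (fun x y => H13 x y - G13 x y) η c13 (fun a c d => G01 c a * G12 a d)
      (fun b c d => G03 c b * H23 d b) (fun c d => G02 c d)
      (fun a c d => ab (mul01 (g01 c a) (g12 a d))) (fun b c d => ab (mul01 (g03 c b) (h23 d b)))
      (fun c d => ab (g02 c d))
    rw [hN]
    refine le_trans (le_of_eq ?_) (h.trans (le_of_eq (by ring)))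
    congr 1
    exact sum_congr rfl fun q _ => by ring
  have t6 : |∑ p ∈ V0 ×ˢ V1 ×ˢ V2 ×ˢ V3, (G01 p.1 p.2.1 * G02 p.1 p.2.2.1 * G03 p.1 p.2.2.2 *
      G12 p.2.1 p.2.2.1 * G13 p.2.1 p.2.2.2 * (H23 p.2.2.1 p.2.2.2 - G23 p.2.2.1 p.2.2.2))| ≤
      η * N := by
    have h := base V2 V3 V0 V1 (fun x y => H23 x y - G23 x y) η c23 (fun a c d => G02 c a * G12 d a)
      (fun b c d => G03 c b * G13 d b) (fun c d => G01 c d)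
      (fun a c d => ab (mul01 (g02 c a) (g12 d a))) (fun b c d => ab (mul01 (g03 c b) (g13 d b)))
      (fun c d => ab (g01 c d))
    rw [hN]
    refine le_trans (le_of_eq ?_) (h.trans (le_of_eq (by ring)))
    congr 1
    exact sum_congr rfl fun q _ => by ring
  rw [← sum_sub_distrib, ← hN]
  have hsplit : ∑ p ∈ V0 ×ˢ V1 ×ˢ V2 ×ˢ V3, ((H01 p.1 p.2.1 * H02 p.1 p.2.2.1 * H03 p.1 p.2.2.2 *
        H12 p.2.1 p.2.2.1 * H13 p.2.1 p.2.2.2 * H23 p.2.2.1 p.2.2.2) -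
      (G01 p.1 p.2.1 * G02 p.1 p.2.2.1 * G03 p.1 p.2.2.2 *
        G12 p.2.1 p.2.2.1 * G13 p.2.1 p.2.2.2 * G23 p.2.2.1 p.2.2.2)) =
      (∑ p ∈ V0 ×ˢ V1 ×ˢ V2 ×ˢ V3, ((H01 p.1 p.2.1 - G01 p.1 p.2.1) * H02 p.1 p.2.2.1 *
      H03 p.1 p.2.2.2 * H12 p.2.1 p.2.2.1 * H13 p.2.1 p.2.2.2 * H23 p.2.2.1 p.2.2.2)) +
      (∑ p ∈ V0 ×ˢ V1 ×ˢ V2 ×ˢ V3, (G01 p.1 p.2.1 * (H02 p.1 p.2.2.1 - G02 p.1 p.2.2.1) *
      H03 p.1 p.2.2.2 * H12 p.2.1 p.2.2.1 * H13 p.2.1 p.2.2.2 * H23 p.2.2.1 p.2.2.2)) +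
      (∑ p ∈ V0 ×ˢ V1 ×ˢ V2 ×ˢ V3, (G01 p.1 p.2.1 * G02 p.1 p.2.2.1 *
      (H03 p.1 p.2.2.2 - G03 p.1 p.2.2.2) * H12 p.2.1 p.2.2.1 * H13 p.2.1 p.2.2.2 *
      H23 p.2.2.1 p.2.2.2)) +
      (∑ p ∈ V0 ×ˢ V1 ×ˢ V2 ×ˢ V3, (G01 p.1 p.2.1 * G02 p.1 p.2.2.1 * G03 p.1 p.2.2.2 *
      (H12 p.2.1 p.2.2.1 - G12 p.2.1 p.2.2.1) * H13 p.2.1 p.2.2.2 * H23 p.2.2.1 p.2.2.2)) +
      (∑ p ∈ V0 ×ˢ V1 ×ˢ V2 ×ˢ V3, (G01 p.1 p.2.1 * G02 p.1 p.2.2.1 * G03 p.1 p.2.2.2 *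
      G12 p.2.1 p.2.2.1 * (H13 p.2.1 p.2.2.2 - G13 p.2.1 p.2.2.2) * H23 p.2.2.1 p.2.2.2)) +
      (∑ p ∈ V0 ×ˢ V1 ×ˢ V2 ×ˢ V3, (G01 p.1 p.2.1 * G02 p.1 p.2.2.1 * G03 p.1 p.2.2.2 *
      G12 p.2.1 p.2.2.1 * G13 p.2.1 p.2.2.2 * (H23 p.2.2.1 p.2.2.2 - G23 p.2.2.1 p.2.2.2))) := by
    simp_rw [← sum_add_distrib]
    refine sum_congr rfl fun p _ => ?_
    ring
  rw [hsplit]
  rw [abs_le] at t1 t2 t3 t4 t5 t6 ⊢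
  constructor <;> linarith [t1.1, t1.2, t2.1, t2.2, t3.1, t3.2, t4.1, t4.2, t5.1, t5.2, t6.1, t6.2]

end Pool.Agent.U570.AF
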