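import Mathlib
import Pool.Agent.H362R2.CM.Moon

/-! Turán's theorem for partite graphs with parts of very different sizes, by sampling. -/

set_option autoImplicit false

namespace Pool.Agent.U570.AF

open Finset Pool.Agent.H362R2.CM

/-- supersaturated Turan theorem for `K_4` (from `Pool.Agent.TH899.UG.turan4`) -/
theorem turan4' {α : Type} (V : Finset α) (C : α → α → Prop) (hC : ∀ x y, C x y → C y x)
    (hV : 0 < V.card) (δ : ℝ) (hδ : 0 < δ)
    (h : (2 / 3 + δ) * (V.card : ℝ) ^ 2 ≤ ((clq V C 2).card : ℝ)) :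
    2 / 3 * δ * (V.card : ℝ) ^ 4 ≤ ((clq V C 4).card : ℝ) := by
  set v : ℝ := (V.card : ℝ) with hv
  have hvp : 0 < v := by rw [hv]; exact_mod_cast hV
  have m1 : ((clq V C 1).card : ℝ) = v := by rw [card_clq_one]
  have hm2 : 0 < ((clq V C 2).card : ℝ) := lt_of_lt_of_le (by positivity) h
  have s1 : (1 / 3 + 2 * δ) * v * ((clq V C 2).card : ℝ) ≤ ((clq V C 3).card : ℝ) := by
    have := ratio_step (a := ((clq V C 1).card : ℝ)) (b := ((clq V C 2).card : ℝ))
      (c := ((clq V C 3).card : ℝ)) (v := v) (k := 1) (r := 2 / 3 + δ) (by rw [m1]; exact hvp) hm2 hvp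
      one_pos (by rw [m1]; nlinarith) (by
        have := moon_moser (V := V) hC 1
        push_cast at this
        exact this)
    refine le_trans (le_of_eq ?_) this
    ring
  have hm3 : 0 < ((clq V C 3).card : ℝ) := lt_of_lt_of_le (by positivity) s1
  have s2 : (3 * δ) * v * ((clq V C 3).card : ℝ) ≤ ((clq V C 4).card : ℝ) := by
    have := ratio_step (a := ((clq V C 2).card : ℝ)) (b := ((clq V C 3).card : ℝ))
      (c := ((clq V C 4).card : ℝ)) (v := v) (k := 2) (r := 1 / 3 + 2 * δ) hm2 hm3 hvp
      two_pos s1 (by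
        have := moon_moser (V := V) hC 2
        push_cast at this
        exact this)
    refine le_trans (le_of_eq ?_) this
    ring
  have t2 : 2 / 3 * v ^ 2 ≤ ((clq V C 2).card : ℝ) := by nlinarith [sq_nonneg v]
  have t3 : 2 / 9 * v ^ 3 ≤ ((clq V C 3).card : ℝ) := by
    calc 2 / 9 * v ^ 3 = 1 / 3 * v * (2 / 3 * v ^ 2) := by ring
      _ ≤ (1 / 3 + 2 * δ) * v * ((clq V C 2).card : ℝ) := by gcongr; linarith
      _ ≤ _ := s1
  calc 2 / 3 * δ * v ^ 4 = (3 * δ) * v * (2 / 9 * v ^ 3) := by ring
    _ ≤ (3 * δ) * v * ((clq V C 3).card : ℝ) := by gcongr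
    _ ≤ _ := s2

open Classical in
/-- marginals of the uniform measure on a product -/
theorem marg {α : Type} {n s : ℕ} (V : Fin n → Finset α) (e : Fin s → Fin n)
    (he : Function.Injective e) (Q : (Fin s → α) → Prop) :
    ((Fintype.piFinset V).filter (fun v => Q (v ∘ e))).card * ∏ a, (V (e a)).card =
      ((Fintype.piFinset (fun a => V (e a))).filter (fun w => Q w)).card * ∏ i, (V i).card := by
  have hfib : ∀ w ∈ (Fintype.piFinset (fun a => V (e a))).filter (fun w => Q w),
      (((Fintype.piFinset V).filter (fun v => Q (v ∘ e))).filter (fun v => v ∘ e = w)).card =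
        ∏ i ∈ univ.filter (fun i => ¬ ∃ a, e a = i), (V i).card := by
    intro w hw
    rw [mem_filter, Fintype.mem_piFinset] at hw
    obtain ⟨U, hU⟩ : ∃ U : Fin n → Finset α, U = fun i =>
      if h : ∃ a, e a = i then {w h.choose} else V i := ⟨_, rfl⟩
    have hUe : ∀ a, U (e a) = {w a} := by
      intro a
      have h : ∃ b, e b = e a := ⟨a, rfl⟩
      rw [hU]
      simp only
      rw [dif_pos h, he h.choose_spec]
    have e1 : ((Fintype.piFinset V).filter (fun v => Q (v ∘ e))).filter (fun v => v ∘ e = w) =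
        Fintype.piFinset U := by
      ext v
      rw [mem_filter, mem_filter, Fintype.mem_piFinset, Fintype.mem_piFinset]
      constructor
      · rintro ⟨⟨h1, _⟩, h3⟩ i
        by_cases hi : ∃ a, e a = i
        · obtain ⟨a, rfl⟩ := hi
          rw [hUe, mem_singleton, ← h3]
          rfl
        · rw [hU]
          simp only
          rw [dif_neg hi]
          exact h1 i
      · intro h
        have h3 : v ∘ e = w := by
          funext a
          have := h (e a)
          rwa [hUe, mem_singleton] at this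
        refine ⟨⟨fun i => ?_, ?_⟩, h3⟩
        · by_cases hi : ∃ a, e a = i
          · obtain ⟨a, rfl⟩ := hi
            have := h (e a)
            rw [hUe, mem_singleton] at this
            rw [this]
            exact hw.1 a
          · have := h i
            rw [hU] at this
            simp only at this
            rwa [dif_neg hi] at this
        · rw [h3]; exact hw.2
    rw [e1, Fintype.card_piFinset]
    rw [← prod_filter_mul_prod_filter_not univ (fun i => ∃ a, e a = i)]
    have e2 : ∏ i ∈ univ.filter (fun i => ∃ a, e a = i), (U i).card = 1 := by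
      refine prod_eq_one fun i hi => ?_
      obtain ⟨a, rfl⟩ := (mem_filter.1 hi).2
      rw [hUe, card_singleton]
    rw [e2, one_mul]
    refine prod_congr rfl fun i hi => ?_
    rw [hU]
    simp only
    rw [dif_neg (mem_filter.1 hi).2]
  have h1 : ((Fintype.piFinset V).filter (fun v => Q (v ∘ e))).card =
      ((Fintype.piFinset (fun a => V (e a))).filter (fun w => Q w)).card *
        ∏ i ∈ univ.filter (fun i => ¬ ∃ a, e a = i), (V i).card := by
    rw [card_eq_sum_card_fiberwise (f := fun v => v ∘ e)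
      (t := (Fintype.piFinset (fun a => V (e a))).filter (fun w => Q w))]
    · rw [sum_congr rfl hfib, sum_const, smul_eq_mul]
    · intro v hv
      rw [mem_coe, mem_filter, Fintype.mem_piFinset] at hv
      simp only [coe_filter, Set.mem_ofPred_eq, Fintype.mem_piFinset]
      exact ⟨fun a => hv.1 _, hv.2⟩
  have h2 : ∏ i, (V i).card = (∏ a, (V (e a)).card) *
      ∏ i ∈ univ.filter (fun i => ¬ ∃ a, e a = i), (V i).card := by
    rw [← prod_filter_mul_prod_filter_not univ (fun i => ∃ a, e a = i)]
    congr 1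
    rw [← prod_image (s := univ) (g := e) (f := fun i => (V i).card) (fun a _ b _ h => he h)]
    refine prod_congr ?_ fun _ _ => rfl
    ext i
    simp
  rw [h1, h2]
  ring

/-- the relation on the indices given by a sample -/
def Cv {α : Type} {n : ℕ} (E : Fin n → Fin n → α → α → Prop) (v : Fin n → α) (i j : Fin n) : Prop :=
  (i < j ∧ E i j (v i) (v j)) ∨ (j < i ∧ E j i (v j) (v i))

theorem Cv.symm {α : Type} {n : ℕ} {E : Fin n → Fin n → α → α → Prop} {v : Fin n → α} {i j : Fin n}
    (h : Cv E v i j) : Cv E v j i := h.elim Or.inr Or.inl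

theorem Cv.ne {α : Type} {n : ℕ} {E : Fin n → Fin n → α → α → Prop} {v : Fin n → α} {i j : Fin n}
    (h : Cv E v i j) : i ≠ j := by
  rcases h with h | h
  · exact h.1.ne
  · exact h.1.ne'

open Classical in
/-- the pairs of a relation as 2-cliques -/
theorem clq_two {α : Type} (V : Finset α) (C : α → α → Prop) (hC : ∀ x y, C x y → C y x) :
    (clq V C 2).card = ((V ×ˢ V).filter (fun x => C x.1 x.2)).card := by
  apply Finset.card_bij (fun f _ => (f 0, f 1))
  · intro f hf
    rw [mem_clq] at hf
    rw [mem_filter, mem_product]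
    exact ⟨⟨hf.1 0, hf.1 1⟩, hf.2 0 1 (by decide)⟩
  · intro f _ f' _ h
    simp only [Prod.mk.injEq] at h
    funext i
    fin_cases i
    · exact h.1
    · exact h.2
  · intro x hx
    rw [mem_filter, mem_product] at hx
    refine ⟨![x.1, x.2], ?_, by simp⟩
    rw [mem_clq]
    constructor
    · intro i
      fin_cases i
      · exact hx.1.1
      · exact hx.1.2
    · intro i j hij
      fin_cases i <;> fin_cases j
      · exact absurd rfl hij
      · exact hx.2
      · exact hC _ _ hx.2
      · exact absurd rfl hij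

open Classical in
/-- pairs: the marginal -/
theorem marg2 {α : Type} {n : ℕ} (V : Fin n → Finset α) (hV : ∀ i, 0 < (V i).card)
    (i j : Fin n) (hij : i ≠ j) (Q : α → α → Prop) (c : ℝ)
    (h : c * ((V i).card * (V j).card) ≤
      (((V i ×ˢ V j).filter (fun x => Q x.1 x.2)).card : ℝ)) :
    c * ∏ i, ((V i).card : ℝ) ≤ (((Fintype.piFinset V).filter (fun v => Q (v i) (v j))).card : ℝ) := by
  have he : Function.Injective ![i, j] := by
    intro a b hab
    fin_cases a <;> fin_cases b
    · rfl
    · exact absurd hab hij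
    · exact absurd hab.symm hij
    · rfl
  have h1 := marg V ![i, j] he (fun w => Q (w 0) (w 1))
  have h2 : ((Fintype.piFinset (fun a => V (![i, j] a))).filter (fun w => Q (w 0) (w 1))).card =
      ((V i ×ˢ V j).filter (fun x => Q x.1 x.2)).card := by
    apply Finset.card_bij (fun f _ => (f 0, f 1))
    · intro f hf
      rw [mem_filter, Fintype.mem_piFinset] at hf
      rw [mem_filter, mem_product]
      exact ⟨⟨hf.1 0, hf.1 1⟩, hf.2⟩
    · intro f _ f' _ h
      simp only [Prod.mk.injEq] at h
      funext i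
      fin_cases i
      · exact h.1
      · exact h.2
    · intro x hx
      rw [mem_filter, mem_product] at hx
      refine ⟨![x.1, x.2], ?_, by simp⟩
      rw [mem_filter, Fintype.mem_piFinset]
      constructor
      · intro i
        fin_cases i
        · exact hx.1.1
        · exact hx.1.2
      · exact hx.2
  have h3 : ∏ a, (V (![i, j] a)).card = (V i).card * (V j).card := by
    rw [Fin.prod_univ_two]
    rfl
  rw [h2, h3] at h1
  have h4 : ((((Fintype.piFinset V).filter (fun v => Q (v i) (v j))).card : ℝ)) *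
      ((V i).card * (V j).card) = (((V i ×ˢ V j).filter (fun x => Q x.1 x.2)).card : ℝ) *
      ∏ i, ((V i).card : ℝ) := by exact_mod_cast h1
  have h5 : (0 : ℝ) < (V i).card * (V j).card := by
    have e1 : (0 : ℝ) < (V i).card := by exact_mod_cast hV i
    have e2 : (0 : ℝ) < (V j).card := by exact_mod_cast hV j
    positivity
  have h6 : (0 : ℝ) ≤ ∏ i, ((V i).card : ℝ) := prod_nonneg fun _ _ => Nat.cast_nonneg _
  refine le_of_mul_le_mul_right ?_ h5
  rw [h4]
  calc c * (∏ i, ((V i).card : ℝ)) * ((V i).card * (V j).card) =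
      (c * ((V i).card * (V j).card)) * ∏ i, ((V i).card : ℝ) := by ring
    _ ≤ _ := mul_le_mul_of_nonneg_right h h6

open Classical in
/-- **Turán's theorem for partite graphs**: if all the bipartite graphs have density at least
`2 / 3 + ε / 2`, then there are many copies of `K_4` on four of the classes -/
theorem turan_sample {α : Type} {n : ℕ} (V : Fin n → Finset α) (hV : ∀ i, 0 < (V i).card)
    (E : Fin n → Fin n → α → α → Prop) (ε : ℝ) (hε : 0 < ε) (hε1 : ε ≤ 2 / 3) (hn : 8 ≤ ε * n)
    (hE : ∀ i j, i < j → (2 / 3 + ε / 2) * ((V i).card * (V j).card) ≤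
      (((V i ×ˢ V j).filter (fun x => E i j x.1 x.2)).card : ℝ)) :
    ∃ e : Fin 4 → Fin n, StrictMono e ∧
      ε / (4 * (n : ℝ) ^ 4) * ∏ a, ((V (e a)).card : ℝ) ≤
        (((Fintype.piFinset (fun a => V (e a))).filter
          (fun w => ∀ a b, a < b → E (e a) (e b) (w a) (w b))).card : ℝ) := by
  have hn0 : 0 < n := by
    rcases Nat.eq_zero_or_pos n with h | h
    · rw [h] at hn; norm_num at hn
    · exact h
  have hnr : (0 : ℝ) < n := by exact_mod_cast hn0
  obtain ⟨N, hN⟩ : ∃ N : ℝ, N = ∏ i, ((V i).card : ℝ) := ⟨_, rfl⟩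
  have hN0 : 0 < N := by
    rw [hN]
    exact prod_pos fun i _ => by exact_mod_cast hV i
  have hcardV : ((Fintype.piFinset V).card : ℝ) = N := by
    rw [Fintype.card_piFinset, hN]
    push_cast
    rfl
  -- edges of the samples
  have hedge : ∀ i j : Fin n, i ≠ j → (2 / 3 + ε / 2) * N ≤
      (((Fintype.piFinset V).filter (fun v => Cv E v i j)).card : ℝ) := by
    intro i j hij
    rcases lt_or_gt_of_ne hij with h | h
    · have h1 := marg2 V hV i j hij (E i j) (2 / 3 + ε / 2) (hE i j h)
      rw [hN]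
      refine h1.trans ?_
      rw [Nat.cast_le]
      refine card_le_card fun v hv => ?_
      rw [mem_filter] at hv ⊢
      exact ⟨hv.1, Or.inl ⟨h, hv.2⟩⟩
    · have h1 := marg2 V hV j i hij.symm (E j i) (2 / 3 + ε / 2) (hE j i h)
      rw [hN]
      refine h1.trans ?_
      rw [Nat.cast_le]
      refine card_le_card fun v hv => ?_
      rw [mem_filter] at hv ⊢
      exact ⟨hv.1, Or.inr ⟨h, hv.2⟩⟩
  obtain ⟨W, hW⟩ : ∃ W, W = (Fintype.piFinset V).filter
    (fun v => (clq (univ : Finset (Fin n)) (Cv E v) 4).Nonempty) := ⟨_, rfl⟩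
  have hper : ∀ v : Fin n → α, ((clq (univ : Finset (Fin n)) (Cv E v) 2).card : ℝ) ≤
      (2 / 3 + ε / 8) * (n : ℝ) ^ 2 +
        (if (clq (univ : Finset (Fin n)) (Cv E v) 4).Nonempty then (n : ℝ) ^ 2 else 0) := by
    intro v
    split_ifs with h
    · have h1 : (clq (univ : Finset (Fin n)) (Cv E v) 2).card ≤ n ^ 2 := by
        rw [clq_two _ _ (fun x y h => h.symm)]
        refine (card_filter_le _ _).trans ?_
        rw [card_product, card_univ, Fintype.card_fin]
        exact le_of_eq (by ring)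
      have h2 : ((clq (univ : Finset (Fin n)) (Cv E v) 2).card : ℝ) ≤ (n : ℝ) ^ 2 := by
        exact_mod_cast h1
      have : 0 ≤ (2 / 3 + ε / 8) * (n : ℝ) ^ 2 := by positivity
      linarith
    · by_contra hcon
      apply h
      have h1 := turan4' (univ : Finset (Fin n)) (Cv E v) (fun x y h => h.symm)
        (by rw [card_univ, Fintype.card_fin]; exact hn0) (ε / 8) (by positivity) (by
          rw [card_univ, Fintype.card_fin]
          linarith)
      rw [← card_pos]
      have h2 : (0 : ℝ) < ((clq (univ : Finset (Fin n)) (Cv E v) 4).card : ℝ) := by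
        refine lt_of_lt_of_le ?_ h1
        rw [card_univ, Fintype.card_fin]
        positivity
      exact_mod_cast h2
  -- double counting
  have hsum1 : ∑ v ∈ Fintype.piFinset V, ((clq (univ : Finset (Fin n)) (Cv E v) 2).card : ℝ) ≤
      (2 / 3 + ε / 8) * (n : ℝ) ^ 2 * N + (n : ℝ) ^ 2 * W.card := by
    refine (sum_le_sum fun v _ => hper v).trans ?_
    rw [sum_add_distrib, sum_const, nsmul_eq_mul, hcardV, ← sum_filter, sum_const, nsmul_eq_mul, hW]
    exact le_of_eq (by ring)
  have hsum2 : ((n : ℝ) ^ 2 - n) * ((2 / 3 + ε / 2) * N) ≤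
      ∑ v ∈ Fintype.piFinset V, ((clq (univ : Finset (Fin n)) (Cv E v) 2).card : ℝ) := by
    have h1 : ∀ v : Fin n → α, ((clq (univ : Finset (Fin n)) (Cv E v) 2).card : ℝ) =
        ∑ x ∈ (univ : Finset (Fin n)) ×ˢ (univ : Finset (Fin n)),
          (if Cv E v x.1 x.2 then (1 : ℝ) else 0) := by
      intro v
      rw [clq_two _ _ (fun x y h => h.symm), card_filter]
      push_cast
      rfl
    simp_rw [h1]
    rw [sum_comm]
    have h2 : ∀ x : Fin n × Fin n, ∑ v ∈ Fintype.piFinset V,
        (if Cv E v x.1 x.2 then (1 : ℝ) else 0) =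
        (((Fintype.piFinset V).filter (fun v => Cv E v x.1 x.2)).card : ℝ) := by
      intro x
      rw [card_filter]
      push_cast
      rfl
    simp_rw [h2]
    have h3 : ∑ x ∈ ((univ : Finset (Fin n)) ×ˢ (univ : Finset (Fin n))).filter (fun x => x.1 ≠ x.2),
        ((2 / 3 + ε / 2) * N) ≤ ∑ x ∈ (univ : Finset (Fin n)) ×ˢ (univ : Finset (Fin n)),
        (((Fintype.piFinset V).filter (fun v => Cv E v x.1 x.2)).card : ℝ) := by
      refine (sum_le_sum fun x hx => hedge x.1 x.2 (mem_filter.1 hx).2).trans ?_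
      exact sum_le_sum_of_subset_of_nonneg (filter_subset _ _) fun _ _ _ => Nat.cast_nonneg _
    refine le_trans (le_of_eq ?_) h3
    rw [sum_const, nsmul_eq_mul]
    congr 1
    have h4 := Finset.card_filter_add_card_filter_not
      (s := (univ : Finset (Fin n)) ×ˢ (univ : Finset (Fin n))) (fun x => x.1 = x.2)
    have h5 : (((univ : Finset (Fin n)) ×ˢ (univ : Finset (Fin n))).filter
        (fun x => x.1 = x.2)).card = n := by
      have : ((univ : Finset (Fin n)) ×ˢ (univ : Finset (Fin n))).filter (fun x => x.1 = x.2) =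
          (univ : Finset (Fin n)).image (fun i => (i, i)) := by
        ext ⟨x, y⟩
        simp
      rw [this, card_image_of_injective _ (fun a b h => (Prod.mk.inj h).1), card_univ,
        Fintype.card_fin]
    rw [h5, card_product, card_univ, Fintype.card_fin] at h4
    have h6 : (n : ℝ) + ((((univ : Finset (Fin n)) ×ˢ (univ : Finset (Fin n))).filter
        (fun x => ¬ x.1 = x.2)).card : ℝ) = n * n := by exact_mod_cast h4
    have h7 : (((((univ : Finset (Fin n)) ×ˢ (univ : Finset (Fin n))).filter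
        (fun x => x.1 ≠ x.2)).card : ℝ)) = n * n - n := by
      simp only [ne_eq]
      linarith
    rw [h7]
    ring
  have hWc : ε / 4 * N ≤ W.card := by
    have h1 := hsum2.trans hsum1
    have h2 : ((n : ℝ) ^ 2 - n) * ((2 / 3 + ε / 2) * N) - (2 / 3 + ε / 8) * (n : ℝ) ^ 2 * N ≤
        (n : ℝ) ^ 2 * W.card := by linarith
    have h3 : (n : ℝ) ^ 2 * (ε / 4 * N) ≤
        ((n : ℝ) ^ 2 - n) * ((2 / 3 + ε / 2) * N) - (2 / 3 + ε / 8) * (n : ℝ) ^ 2 * N := by
      have h4 : ((n : ℝ) ^ 2 - n) * ((2 / 3 + ε / 2) * N) - (2 / 3 + ε / 8) * (n : ℝ) ^ 2 * N -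
          (n : ℝ) ^ 2 * (ε / 4 * N) = n * N * (n * ε / 8 - (2 / 3 + ε / 2)) := by ring
      have h5 : 0 ≤ n * N * (n * ε / 8 - (2 / 3 + ε / 2)) := by
        apply mul_nonneg (by positivity)
        linarith
      linarith
    have h6 := h3.trans h2
    exact le_of_mul_le_mul_left h6 (by positivity)
  -- pigeonhole
  have hcov : W ⊆ (univ : Finset (Fin 4 → Fin n)).biUnion (fun f =>
      (Fintype.piFinset V).filter (fun v => f ∈ clq (univ : Finset (Fin n)) (Cv E v) 4)) := by
    intro v hv
    rw [hW, mem_filter] at hv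
    obtain ⟨f, hf⟩ := hv.2
    rw [mem_biUnion]
    exact ⟨f, mem_univ _, mem_filter.2 ⟨hv.1, hf⟩⟩
  obtain ⟨f, hf⟩ : ∃ f : Fin 4 → Fin n, ε / (4 * (n : ℝ) ^ 4) * N ≤
      (((Fintype.piFinset V).filter
        (fun v => f ∈ clq (univ : Finset (Fin n)) (Cv E v) 4)).card : ℝ) := by
    by_contra hcon
    push Not at hcon
    have h1 : (W.card : ℝ) ≤ ∑ f : Fin 4 → Fin n, (((Fintype.piFinset V).filter
        (fun v => f ∈ clq (univ : Finset (Fin n)) (Cv E v) 4)).card : ℝ) := by
      have := (card_le_card hcov).trans card_biUnion_le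
      exact_mod_cast this
    have h2 : ∑ f : Fin 4 → Fin n, (((Fintype.piFinset V).filter
        (fun v => f ∈ clq (univ : Finset (Fin n)) (Cv E v) 4)).card : ℝ) <
        ∑ _f : Fin 4 → Fin n, ε / (4 * (n : ℝ) ^ 4) * N := by
      apply sum_lt_sum_of_nonempty
      · exact ⟨fun _ => ⟨0, hn0⟩, mem_univ _⟩
      · intro f _
        exact hcon f
    rw [sum_const, card_univ, Fintype.card_fun, Fintype.card_fin, Fintype.card_fin,
      nsmul_eq_mul] at h2
    have h3 : ((n ^ 4 : ℕ) : ℝ) * (ε / (4 * (n : ℝ) ^ 4) * N) = ε / 4 * N := by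
      push_cast
      field_simp
    rw [h3] at h2
    linarith
  -- sort the indices
  have hfpos : 0 < (((Fintype.piFinset V).filter
      (fun v => f ∈ clq (univ : Finset (Fin n)) (Cv E v) 4)).card : ℝ) :=
    lt_of_lt_of_le (by positivity) hf
  have hfinj : Function.Injective f := by
    have h1 : 0 < ((Fintype.piFinset V).filter
      (fun v => f ∈ clq (univ : Finset (Fin n)) (Cv E v) 4)).card := by exact_mod_cast hfpos
    obtain ⟨v, hv⟩ := card_pos.1 h1
    have h2 := (mem_clq.1 (mem_filter.1 hv).2).2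
    intro a b hab
    by_contra hne
    exact (h2 a b hne).ne hab
  have hinj : Function.Injective (f ∘ Tuple.sort f) := hfinj.comp (Tuple.sort f).injective
  have hmono : StrictMono (f ∘ Tuple.sort f) :=
    (Tuple.monotone_sort f).strictMono_of_injective hinj
  obtain ⟨Q, hQ⟩ : ∃ Q : (Fin 4 → α) → Prop, Q = (fun w => ∀ a b : Fin 4, a < b →
      E ((f ∘ Tuple.sort f) a) ((f ∘ Tuple.sort f) b) (w a) (w b)) := ⟨_, rfl⟩
  refine ⟨f ∘ Tuple.sort f, hmono, ?_⟩
  have h1 := marg V (f ∘ Tuple.sort f) hinj Q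
  have h2 : ((Fintype.piFinset V).filter
      (fun v => f ∈ clq (univ : Finset (Fin n)) (Cv E v) 4)).card ≤
      ((Fintype.piFinset V).filter (fun v => Q (v ∘ (f ∘ Tuple.sort f)))).card := by
    refine card_le_card fun v hv => ?_
    rw [mem_filter] at hv ⊢
    refine ⟨hv.1, ?_⟩
    rw [hQ]
    intro a b hab
    have h3 := (mem_clq.1 hv.2).2 (Tuple.sort f a) (Tuple.sort f b)
      (fun h => hab.ne ((Tuple.sort f).injective h))
    rcases h3 with h3 | h3
    · exact h3.2
    · exact absurd h3.1 (not_lt.2 (hmono hab).le)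
  have h4 : (((Fintype.piFinset V).filter (fun v => Q (v ∘ (f ∘ Tuple.sort f)))).card : ℝ) *
      ∏ a, ((V ((f ∘ Tuple.sort f) a)).card : ℝ) =
      (((Fintype.piFinset (fun a => V ((f ∘ Tuple.sort f) a))).filter
        (fun w => Q w)).card : ℝ) * N := by
    rw [hN]
    exact_mod_cast h1
  have h6 : (((Fintype.piFinset (fun a => V ((f ∘ Tuple.sort f) a))).filter
      (fun w => ∀ a b, a < b → E ((f ∘ Tuple.sort f) a) ((f ∘ Tuple.sort f) b) (w a) (w b))).card : ℝ) =
      (((Fintype.piFinset (fun a => V ((f ∘ Tuple.sort f) a))).filter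
        (fun w => Q w)).card : ℝ) := by
    rw [hQ]
    congr!
  rw [h6]
  refine le_of_mul_le_mul_right ?_ hN0
  rw [← h4]
  have h5 : (0 : ℝ) ≤ ∏ a, ((V ((f ∘ Tuple.sort f) a)).card : ℝ) :=
    prod_nonneg fun _ _ => Nat.cast_nonneg _
  calc ε / (4 * (n : ℝ) ^ 4) * (∏ a, ((V ((f ∘ Tuple.sort f) a)).card : ℝ)) * N =
      (ε / (4 * (n : ℝ) ^ 4) * N) * ∏ a, ((V ((f ∘ Tuple.sort f) a)).card : ℝ) := by ring
    _ ≤ _ := mul_le_mul_of_nonneg_right (hf.trans (Nat.cast_le.2 h2)) h5

end Pool.Agent.U570.AF
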