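import Pool.Agent.U570.AF.Dens
import Pool.Agent.U570.AF.Count4
import Pool.Agent.U570.AF.Samp

/-! The combinatorial core: many quadruples of vertices all of whose pairs are bad. -/

set_option autoImplicit false

namespace Pool.Agent.U570.AF

open Finset

noncomputable section

/-- the kernel with the boundary removed -/
def kb (Bd : ℕ → ℕ → Prop) (X P m Y N D : ℕ) (v w : ℕ × ℕ) : ℝ :=
  if N ≤ w.2 then ker (bk Bd X P m Y) m D v w else 0

theorem cutB_edge {P : ℕ} [NeZero P] (Bd : ℕ → ℕ → Prop) (X Y N m K M B L R D : ℕ) (S : Finset ℕ)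
    (hS : S.Nonempty) (hB : ∀ t ∈ S, t ≤ B)
    (hM : ∀ k k' : ℕ, k < k' → k' ≤ K → (m ^ k' - m ^ k) ∣ M)
    (hm : 1 ≤ m) (hL : 1 ≤ L) (hR : 1 ≤ R) (hD : R ≤ D)
    (hDK : D + R ≤ K) (δ κ x y ρ β : ℝ) (hδ : 0 < δ) (hκ : 0 < κ) (hx : 0 ≤ x) (hy : 0 ≤ y)
    (hx2 : 2 * κ ≤ x ^ 2) (hy2 : 2 ≤ y ^ 2 * (κ * R)) (hρ : 0 ≤ ρ) (hρL : 2 / δ ≤ ρ * L)
    (hρR : ρ * R ≤ 1) (hN : (N : ℝ) ≤ β * P) :
    CutB (range R ×ˢ range L) (range R ×ˢ range P)
      (fun v w => kb Bd X P m Y N D v w - ker (fun k => ravg S M (bk Bd X P m Y k)) m D v w)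
      (x + y + B * M * δ + β) := by
  intro u u' hu hu'
  have h1 := cut_pair m K M B L R D S hS hB hM hm hL hR hD hDK δ κ x y ρ hδ hκ hx hy hx2 hy2 hρ hρL
    hρR (bk Bd X P m Y) (fun k z => bf_nonneg _ _ _ _ _) (fun k z => bf_le _ _ _ _ _) u u' hu hu'
  have h2 : |∑ v ∈ range R ×ˢ range L, ∑ w ∈ range R ×ˢ range P,
      (kb Bd X P m Y N D v w - ker (bk Bd X P m Y) m D v w) * (u v * u' w)| ≤
      β * ((range R ×ˢ range L).card * (range R ×ˢ range P).card) := by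
    have h3 : ∀ v w : ℕ × ℕ, |(kb Bd X P m Y N D v w - ker (bk Bd X P m Y) m D v w) * (u v * u' w)| ≤
        (if w.2 < N then (1 : ℝ) else 0) := by
      intro v w
      have h4 : |u v * u' w| ≤ 1 := by
        rw [abs_mul]
        exact mul_le_one₀ (hu v) (abs_nonneg _) (hu' w)
      rw [abs_mul]
      unfold kb
      by_cases h : N ≤ w.2
      · rw [if_pos h, sub_self, abs_zero, zero_mul]
        split_ifs <;> norm_num
      · rw [if_neg h, if_pos (not_le.1 h), zero_sub, abs_neg]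
        have h5 : |ker (bk Bd X P m Y) m D v w| ≤ 1 :=
          abs_le_one_of (bf_nonneg _ _ _ _ _) (bf_le _ _ _ _ _)
        exact mul_le_one₀ h5 (abs_nonneg _) h4
    have h6 : ∑ w ∈ range R ×ˢ range P, (if w.2 < N then (1 : ℝ) else 0) ≤ R * N := by
      rw [sum_product]
      calc ∑ _s ∈ range R, ∑ b ∈ range P, (if b < N then (1 : ℝ) else 0) ≤ ∑ _s ∈ range R, (N : ℝ) := by
            refine sum_le_sum fun s _ => ?_
            rw [← sum_filter, sum_const, nsmul_eq_mul, mul_one]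
            have : (range P).filter (fun b => b < N) ⊆ range N := fun b hb =>
              mem_range.2 (mem_filter.1 hb).2
            have := card_le_card this
            rw [card_range] at this
            exact_mod_cast this
        _ = R * N := by rw [sum_const, card_range, nsmul_eq_mul]
    calc _ ≤ ∑ v ∈ range R ×ˢ range L, ∑ w ∈ range R ×ˢ range P, (if w.2 < N then (1 : ℝ) else 0) := by
          refine (abs_sum_le_sum_abs _ _).trans (sum_le_sum fun v _ => ?_)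
          exact (abs_sum_le_sum_abs _ _).trans (sum_le_sum fun w _ => h3 v w)
      _ ≤ ∑ _v ∈ range R ×ˢ range L, (R * N : ℝ) := sum_le_sum fun v _ => h6
      _ = (range R ×ˢ range L).card * (R * N) := by rw [sum_const, nsmul_eq_mul]
      _ ≤ (range R ×ˢ range L).card * (R * (β * P)) := by
          refine mul_le_mul_of_nonneg_left ?_ (Nat.cast_nonneg _)
          exact mul_le_mul_of_nonneg_left hN (Nat.cast_nonneg _)
      _ = _ := by
          have : (((range R ×ˢ range P).card : ℕ) : ℝ) = R * P := by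
            rw [card_product, card_range, card_range]
            push_cast
            rfl
          rw [this]
          ring
  have h7 : ∑ v ∈ range R ×ˢ range L, ∑ w ∈ range R ×ˢ range P,
      (kb Bd X P m Y N D v w - ker (fun k => ravg S M (bk Bd X P m Y k)) m D v w) * (u v * u' w) =
      ∑ v ∈ range R ×ˢ range L, ∑ w ∈ range R ×ˢ range P,
      (kb Bd X P m Y N D v w - ker (bk Bd X P m Y) m D v w) * (u v * u' w) +
      ∑ v ∈ range R ×ˢ range L, ∑ w ∈ range R ×ˢ range P,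
      (ker (bk Bd X P m Y) m D v w - ker (fun k => ravg S M (bk Bd X P m Y k)) m D v w) *
        (u v * u' w) := by
    simp_rw [← sum_add_distrib]
    exact sum_congr rfl fun v _ => sum_congr rfl fun w _ => by ring
  simp only
  rw [h7]
  refine (abs_add_le _ _).trans ?_
  calc _ ≤ β * ((range R ×ˢ range L).card * (range R ×ˢ range P).card : ℝ) +
      (x + y + B * M * δ) * ((range R ×ˢ range L).card * (range R ×ˢ range P).card) := add_le_add h2 h1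
    _ = _ := by ring

theorem kb_U01 {P : ℕ} [NeZero P] (Bd : ℕ → ℕ → Prop) (X Y m N D : ℕ) : U01 (kb Bd X P m Y N D) := by
  intro v w
  unfold kb
  split_ifs
  · exact ⟨bf_nonneg _ _ _ _ _, bf_le _ _ _ _ _⟩
  · exact ⟨le_rfl, zero_le_one⟩

theorem ravg_U01 {P : ℕ} [NeZero P] (Bd : ℕ → ℕ → Prop) (X Y m D M : ℕ) (S : Finset ℕ) :
    U01 (ker (fun k => ravg S M (bk Bd X P m Y k)) m D) := by
  intro v w
  unfold ker
  exact ⟨ravg_nonneg S M (bk Bd X P m Y (D + w.1 - v.1)) (fun z => bf_nonneg _ _ _ _ _) _,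
    ravg_le S M (bk Bd X P m Y (D + w.1 - v.1)) (fun z => bf_le _ _ _ _ _) _⟩

/-- the meaning of the kernel with the boundary removed -/
theorem kb_ne_zero {P : ℕ} [NeZero P] (Bd : ℕ → ℕ → Prop) (X Y m K D L R : ℕ) (hm : 1 ≤ m)
    (hDK : D + R ≤ K) (v w : ℕ × ℕ) (hv : v ∈ range R ×ˢ range L) (hw : w ∈ range R ×ˢ range P)
    (h : kb Bd X P m Y (m ^ K * (L + Y)) D v w ≠ 0) :
    ∃ y : ℕ, y + m ^ (D + w.1 - v.1) * (Y + v.2) = X + w.2 ∧ Bd (D + w.1 - v.1) y := by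
  rw [mem_product, mem_range, mem_range] at hv hw
  unfold kb at h
  by_cases hN : m ^ K * (L + Y) ≤ w.2
  · rw [if_pos hN] at h
    have h1 : m ^ (D + w.1 - v.1) * (Y + v.2) ≤ w.2 := by
      refine le_trans ?_ hN
      refine Nat.mul_le_mul (Nat.pow_le_pow_right hm (by omega)) (by omega)
    have h2 : (w.2 : ZMod P) - (m : ZMod P) ^ (D + w.1 - v.1) * (v.2 : ZMod P) -
        (m : ZMod P) ^ (D + w.1 - v.1) * (Y : ZMod P) =
        ((w.2 - m ^ (D + w.1 - v.1) * (Y + v.2) : ℕ) : ZMod P) := by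
      rw [Nat.cast_sub h1]
      push_cast
      ring
    have h3 : Bd (D + w.1 - v.1) (X + (w.2 - m ^ (D + w.1 - v.1) * (Y + v.2))) := by
      by_contra hcon
      apply h
      have h4 : w.2 - m ^ (D + w.1 - v.1) * (Y + v.2) < P := by omega
      unfold ker bk bf
      rw [h2, ZMod.val_cast_of_lt h4, if_neg hcon]
    exact ⟨_, by omega, h3⟩
  · rw [if_neg hN] at h
    exact absurd rfl h

open Classical in
theorem pi4 {α : Type} (V : Fin 4 → Finset α) (Q : α → α → α → α → Prop) :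
    ((Fintype.piFinset V).filter (fun w => Q (w 0) (w 1) (w 2) (w 3))).card =
      ((V 0 ×ˢ V 1 ×ˢ V 2 ×ˢ V 3).filter (fun p => Q p.1 p.2.1 p.2.2.1 p.2.2.2)).card := by
  apply Finset.card_bij (fun w _ => (w 0, w 1, w 2, w 3))
  · intro w hw
    rw [mem_filter, Fintype.mem_piFinset] at hw
    rw [mem_filter, mem_product, mem_product, mem_product]
    exact ⟨⟨hw.1 0, hw.1 1, hw.1 2, hw.1 3⟩, hw.2⟩
  · intro f _ f' _ h
    simp only [Prod.mk.injEq] at h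
    funext i
    fin_cases i
    · exact h.1
    · exact h.2.1
    · exact h.2.2.1
    · exact h.2.2.2
  · intro p hp
    rw [mem_filter, mem_product, mem_product, mem_product] at hp
    refine ⟨![p.1, p.2.1, p.2.2.1, p.2.2.2], ?_, by simp⟩
    rw [mem_filter, Fintype.mem_piFinset]
    refine ⟨fun i => ?_, hp.2⟩
    fin_cases i
    · exact hp.1.1
    · exact hp.1.2.1
    · exact hp.1.2.2.1
    · exact hp.1.2.2.2

theorem forall_lt4 (Q : Fin 4 → Fin 4 → Prop) :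
    (∀ a b, a < b → Q a b) ↔ Q 0 1 ∧ Q 0 2 ∧ Q 0 3 ∧ Q 1 2 ∧ Q 1 3 ∧ Q 2 3 := by
  constructor
  · intro h
    exact ⟨h 0 1 (by decide), h 0 2 (by decide), h 0 3 (by decide), h 1 2 (by decide),
      h 1 3 (by decide), h 2 3 (by decide)⟩
  · rintro ⟨h1, h2, h3, h4, h5, h6⟩ a b hab
    fin_cases a <;> fin_cases b
    all_goals first
      | exact absurd hab (by decide)
      | assumption

theorem six_le {ε a b c d e f : ℝ} (hε : 0 ≤ ε) (ha : ε ≤ a) (hb : ε ≤ b) (hc : ε ≤ c) (hd : ε ≤ d)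
    (he : ε ≤ e) (hf : ε ≤ f) : ε ^ 6 ≤ a * b * c * d * e * f := by
  have ha' := hε.trans ha
  have hb' := hε.trans hb
  have hc' := hε.trans hc
  have hd' := hε.trans hd
  have he' := hε.trans he
  calc ε ^ 6 = ε * ε * ε * ε * ε * ε := by ring
    _ ≤ a * b * c * d * e * f := by gcongr

open Classical in
/-- the combinatorial core -/
theorem core (ε : ℝ) (hε : 0 < ε) (hε1 : ε ≤ 1 / 3) : ∃ n R : ℕ, 1 ≤ n ∧ 1 ≤ R ∧ ∃ c : ℝ, 0 < c ∧
    ∀ m : ℕ, 1 ≤ m → ∀ M : ℕ, (∀ k k' : ℕ, k < k' → k' ≤ 2 * R * n → (m ^ k' - m ^ k) ∣ M) →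
    ∀ S : Finset ℕ, S.Nonempty → ∃ W : ℕ, 1 ≤ W ∧ ∀ L X : Fin n → ℕ, (∀ i, W ≤ L i) →
    (∀ i j, i < j → W * (L i + X i) ≤ L j) → ∀ Bd : ℕ → ℕ → Prop,
    (∀ i k, 1 ≤ k → k ≤ 2 * R * n → (2 / 3 + ε) * (L i : ℝ) ≤
      (((range (L i)).filter (fun z => ε * S.card ≤
        ((S.filter (fun t => Bd k (X i + z + M * t))).card : ℝ))).card : ℝ)) →
    ∃ e : Fin 4 → Fin n, StrictMono e ∧
      c * ∏ a, (((range R ×ˢ range (L (e a))).card : ℕ) : ℝ) ≤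
        (((Fintype.piFinset (fun a => range R ×ˢ range (L (e a)))).filter (fun w => ∀ a b, a < b →
          ∃ y : ℕ, y + m ^ (2 * R * ((e b : ℕ) - e a) + (w b).1 - (w a).1) * (X (e a) + (w a).2) =
            X (e b) + (w b).2 ∧ Bd (2 * R * ((e b : ℕ) - e a) + (w b).1 - (w a).1) y)).card : ℝ) := by
  obtain ⟨n, hn⟩ : ∃ n : ℕ, 8 / ε ≤ n := exists_nat_ge _
  have hn0 : 0 < n := by
    have : (0 : ℝ) < n := lt_of_lt_of_le (by positivity) hn
    exact_mod_cast this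
  have hnr : (0 : ℝ) < n := by exact_mod_cast hn0
  have hn8 : 8 ≤ ε * n := by
    rw [div_le_iff₀ hε] at hn
    linarith
  obtain ⟨h, hh⟩ : ∃ h : ℝ, h = ε ^ 7 / (48 * (n : ℝ) ^ 4) := ⟨_, rfl⟩
  have hh0 : 0 < h := by rw [hh]; positivity
  obtain ⟨r, hr⟩ : ∃ r : ℕ, 6 / h ≤ r := exists_nat_ge _
  have hr0 : 0 < r := by
    have : (0 : ℝ) < r := lt_of_lt_of_le (by positivity) hr
    exact_mod_cast this
  have hrr : (0 : ℝ) < r := by exact_mod_cast hr0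
  obtain ⟨R, hR⟩ : ∃ R : ℕ, R = r ^ 4 := ⟨_, rfl⟩
  have hR1 : 1 ≤ R := by rw [hR]; exact Nat.one_le_pow _ _ hr0
  have hRr : (R : ℝ) = (r : ℝ) ^ 4 := by rw [hR]; push_cast; rfl
  have hR0 : (0 : ℝ) < R := by exact_mod_cast hR1
  refine ⟨n, R, hn0, hR1, ε ^ 7 / (8 * (n : ℝ) ^ 4), by positivity, ?_⟩
  intro m hm M hM S hS
  obtain ⟨B, hB⟩ : ∃ B : ℕ, ∀ t ∈ S, t ≤ B := ⟨S.sup id, fun t ht => le_sup (f := id) ht⟩
  obtain ⟨K, hK⟩ : ∃ K : ℕ, K = 2 * R * n := ⟨_, rfl⟩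
  rw [← hK] at hM
  rw [← hK]
  obtain ⟨δ, hδ⟩ : ∃ δ : ℝ, δ = h / (4 * (B * M + 1)) := ⟨_, rfl⟩
  have hδ0 : 0 < δ := by rw [hδ]; positivity
  obtain ⟨W1, hW1⟩ : ∃ W1 : ℕ, 2 / δ * R ≤ W1 := exists_nat_ge _
  obtain ⟨W2, hW2⟩ : ∃ W2 : ℕ, 2 * (M * B) / ε ≤ W2 := exists_nat_ge _
  obtain ⟨W3, hW3⟩ : ∃ W3 : ℕ, 4 * (m : ℝ) ^ K / h ≤ W3 := exists_nat_ge _
  refine ⟨W1 + W2 + W3 + 1, by omega, ?_⟩
  intro L X hL hLX Bd hBd
  have hL1 : ∀ i, 1 ≤ L i := fun i => by have := hL i; omega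
  have hne : ∀ i, NeZero (L i) := fun i => ⟨by have := hL1 i; omega⟩
  -- bounds for the lengths
  have b1 : ∀ i, 2 / δ ≤ (1 / R : ℝ) * (L i) := by
    intro i
    have h1 : (W1 : ℝ) ≤ L i := by
      have := hL i
      exact_mod_cast (by omega : W1 ≤ L i)
    rw [one_div, ← div_eq_inv_mul, le_div_iff₀ hR0]
    exact hW1.trans h1
  have b2 : ∀ i, (M * B : ℝ) ≤ ε / 2 * (L i : ℝ) := by
    intro i
    have h1 : (W2 : ℝ) ≤ L i := by
      have := hL i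
      exact_mod_cast (by omega : W2 ≤ L i)
    have h2 := hW2.trans h1
    rw [div_le_iff₀ hε] at h2
    linarith
  have b3 : ∀ i j, i < j → ((m ^ K * (L i + X i) : ℕ) : ℝ) ≤ h / 4 * (L j : ℝ) := by
    intro i j hij
    have h1 : W3 * (L i + X i) ≤ L j := by
      refine le_trans (Nat.mul_le_mul_right _ ?_) (hLX i j hij)
      omega
    have h2 : (W3 : ℝ) * (L i + X i) ≤ L j := by exact_mod_cast h1
    rw [div_le_iff₀ hh0] at hW3
    push_cast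
    have h3 : (0 : ℝ) ≤ (L i : ℝ) + X i := by positivity
    calc (m : ℝ) ^ K * (L i + X i) ≤ (h / 4 * W3) * (L i + X i) :=
          mul_le_mul_of_nonneg_right (by linarith) h3
      _ = h / 4 * (W3 * (L i + X i)) := by ring
      _ ≤ _ := mul_le_mul_of_nonneg_left h2 (by positivity)
  -- the difference of the exponents of the classes
  have hD : ∀ i j : Fin n, i < j → R ≤ 2 * R * ((j : ℕ) - i) ∧ 2 * R * ((j : ℕ) - i) + R ≤ K := by
    intro i j hij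
    have h1 : 1 ≤ (j : ℕ) - i := by have : (i : ℕ) < j := hij; omega
    have h2 : (j : ℕ) - i + 1 ≤ n := by have := j.2; omega
    constructor
    · calc R ≤ 2 * R * 1 := by omega
        _ ≤ _ := Nat.mul_le_mul_left _ h1
    · rw [hK]
      calc 2 * R * ((j : ℕ) - i) + R ≤ 2 * R * ((j : ℕ) - i) + 2 * R * 1 := by omega
        _ = 2 * R * ((j : ℕ) - i + 1) := by ring
        _ ≤ _ := Nat.mul_le_mul_left _ h2
  -- cut norm
  obtain ⟨x, hx⟩ : ∃ x : ℝ, x = 3 / (2 * r) := ⟨_, rfl⟩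
  have hx0 : 0 ≤ x := by rw [hx]; positivity
  have hx2 : 2 * (1 / (r : ℝ) ^ 2) ≤ x ^ 2 := by
    rw [hx]
    have : (3 / (2 * (r : ℝ))) ^ 2 = 9 / 4 * (1 / (r : ℝ) ^ 2) := by field_simp; norm_num
    rw [this]
    have : 0 ≤ 1 / (r : ℝ) ^ 2 := by positivity
    linarith
  have hy2 : 2 ≤ x ^ 2 * (1 / (r : ℝ) ^ 2 * R) := by
    rw [hx, hRr]
    have : (3 / (2 * (r : ℝ))) ^ 2 * (1 / (r : ℝ) ^ 2 * (r : ℝ) ^ 4) = 9 / 4 := by field_simp; norm_num
    rw [this]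
    norm_num
  have hsmall : x + x + B * M * δ + h / 4 ≤ h := by
    have h1 : x + x ≤ h / 2 := by
      rw [hx]
      have : 3 / (2 * (r : ℝ)) + 3 / (2 * r) = 3 / r := by field_simp; norm_num
      rw [this, div_le_iff₀ hrr]
      rw [div_le_iff₀ hh0] at hr
      linarith
    have h2 : (B : ℝ) * M * δ ≤ h / 4 := by
      rw [hδ]
      have : (B : ℝ) * M * (h / (4 * (B * M + 1))) = h / 4 * ((B * M) / (B * M + 1)) := by
        field_simp
      rw [this]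
      refine mul_le_of_le_one_right (by positivity) ?_
      rw [div_le_one (by positivity)]
      linarith
    linarith
  have hcut : ∀ i j : Fin n, i < j → CutB (range R ×ˢ range (L i)) (range R ×ˢ range (L j))
      (fun v w => kb Bd (X j) (L j) m (X i) (m ^ K * (L i + X i)) (2 * R * ((j : ℕ) - i)) v w -
        ker (fun k => ravg S M (bk Bd (X j) (L j) m (X i) k)) m (2 * R * ((j : ℕ) - i)) v w) h := by
    intro i j hij u u' hu hu'
    have h1 := cutB_edge Bd (X j) (X i) (m ^ K * (L i + X i)) m K M B (L i) R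
      (2 * R * ((j : ℕ) - i)) S hS hB hM hm (hL1 i) hR1 (hD i j hij).1 (hD i j hij).2 δ
      (1 / (r : ℝ) ^ 2) x x (1 / R) (h / 4) hδ0 (by positivity) hx0 hx0 hx2 hy2 (by positivity) (b1 i)
      (by rw [one_div, inv_mul_cancel₀ hR0.ne']) (b3 i j hij) u u' hu hu'
    refine h1.trans (mul_le_mul_of_nonneg_right hsmall (by positivity))
  -- Turan
  obtain ⟨e, he, hcount⟩ := turan_sample (fun i : Fin n => range R ×ˢ range (L i)) (fun i => by
      rw [card_product, card_range, card_range]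
      exact Nat.mul_pos hR1 (hL1 i))
    (fun i j v w => ε ≤ ker (fun k => ravg S M (bk Bd (X j) (L j) m (X i) k)) m
      (2 * R * ((j : ℕ) - i)) v w) ε hε (by linarith) hn8 (fun i j hij => by
      exact edge_dens Bd (X j) (X i) m K M B (L i) R (2 * R * ((j : ℕ) - i)) S hS hB ε (b2 j)
        (hD i j hij).1 (hD i j hij).2 (fun k hk1 hk2 => hBd j k hk1 hk2))
  refine ⟨e, he, ?_⟩
  obtain ⟨H, hH⟩ : ∃ H : Fin 4 → Fin 4 → ℕ × ℕ → ℕ × ℕ → ℝ, H = fun a b v w =>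
    kb Bd (X (e b)) (L (e b)) m (X (e a)) (m ^ K * (L (e a) + X (e a)))
      (2 * R * ((e b : ℕ) - e a)) v w := ⟨_, rfl⟩
  obtain ⟨G, hG⟩ : ∃ G : Fin 4 → Fin 4 → ℕ × ℕ → ℕ × ℕ → ℝ, G = fun a b v w =>
    ker (fun k => ravg S M (bk Bd (X (e b)) (L (e b)) m (X (e a)) k)) m
      (2 * R * ((e b : ℕ) - e a)) v w := ⟨_, rfl⟩
  obtain ⟨V, hV⟩ : ∃ V : Fin 4 → Finset (ℕ × ℕ), V = fun a => range R ×ˢ range (L (e a)) := ⟨_, rfl⟩
  have hHU : ∀ a b, U01 (H a b) := fun a b => by rw [hH]; exact kb_U01 _ _ _ _ _ _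
  have hGU : ∀ a b, U01 (G a b) := fun a b => by rw [hG]; exact ravg_U01 _ _ _ _ _ _ _
  have hHG : ∀ a b, a < b → CutB (V a) (V b) (fun v w => H a b v w - G a b v w) h := by
    intro a b hab
    rw [hH, hG, hV]
    exact hcut (e a) (e b) (he hab)
  have key := count4 (V 0) (V 1) (V 2) (V 3) h (H 0 1) (H 0 2) (H 0 3) (H 1 2) (H 1 3) (H 2 3)
    (G 0 1) (G 0 2) (G 0 3) (G 1 2) (G 1 3) (G 2 3)
    (hHU _ _) (hHU _ _) (hHU _ _) (hHU _ _) (hHU _ _) (hHU _ _)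
    (hGU _ _) (hGU _ _) (hGU _ _) (hGU _ _) (hGU _ _) (hGU _ _)
    (hHG _ _ (by decide)) (hHG _ _ (by decide)) (hHG _ _ (by decide)) (hHG _ _ (by decide))
    (hHG _ _ (by decide)) (hHG _ _ (by decide))
  obtain ⟨Nn, hNn⟩ : ∃ Nn : ℝ, Nn = ∏ a, ((V a).card : ℝ) := ⟨_, rfl⟩
  have hN4 : ((V 0).card * (V 1).card * (V 2).card * (V 3).card : ℝ) = Nn := by
    rw [hNn, Fin.prod_univ_four]
  rw [hN4] at key
  -- lower bound for the sum of the averages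
  obtain ⟨QG, hQG⟩ : ∃ QG : ℕ × ℕ → ℕ × ℕ → ℕ × ℕ → ℕ × ℕ → Prop, QG = fun x0 x1 x2 x3 =>
    ε ≤ G 0 1 x0 x1 ∧ ε ≤ G 0 2 x0 x2 ∧ ε ≤ G 0 3 x0 x3 ∧
        ε ≤ G 1 2 x1 x2 ∧ ε ≤ G 1 3 x1 x3 ∧ ε ≤ G 2 3 x2 x3 := ⟨_, rfl⟩
  have hlow : ε ^ 6 * (ε / (4 * (n : ℝ) ^ 4) * Nn) ≤
      ∑ p ∈ V 0 ×ˢ V 1 ×ˢ V 2 ×ˢ V 3, (G 0 1 p.1 p.2.1 * G 0 2 p.1 p.2.2.1 * G 0 3 p.1 p.2.2.2 *
        G 1 2 p.2.1 p.2.2.1 * G 1 3 p.2.1 p.2.2.2 * G 2 3 p.2.2.1 p.2.2.2) := by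
    have h1 : ((((Fintype.piFinset (fun a => range R ×ˢ range (L (e a)))).filter
        (fun w => ∀ a b, a < b → ε ≤ ker (fun k => ravg S M (bk Bd (X (e b)) (L (e b)) m (X (e a)) k))
          m (2 * R * ((e b : ℕ) - e a)) (w a) (w b))).card : ℕ) : ℝ) ≤
        (((V 0 ×ˢ V 1 ×ˢ V 2 ×ˢ V 3).filter (fun p =>
          QG p.1 p.2.1 p.2.2.1 p.2.2.2)).card : ℝ) := by
      rw [← pi4 V QG, Nat.cast_le, hV]
      refine card_le_card fun w hw => ?_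
      rw [mem_filter] at hw ⊢
      refine ⟨hw.1, ?_⟩
      have h2 := (forall_lt4 _).1 hw.2
      rw [hQG, hG]
      exact h2
    have h3 : (((V 0 ×ˢ V 1 ×ˢ V 2 ×ˢ V 3).filter (fun p =>
          QG p.1 p.2.1 p.2.2.1 p.2.2.2)).card : ℝ) * ε ^ 6 ≤
        ∑ p ∈ V 0 ×ˢ V 1 ×ˢ V 2 ×ˢ V 3, (G 0 1 p.1 p.2.1 * G 0 2 p.1 p.2.2.1 * G 0 3 p.1 p.2.2.2 *
        G 1 2 p.2.1 p.2.2.1 * G 1 3 p.2.1 p.2.2.2 * G 2 3 p.2.2.1 p.2.2.2) := by
      rw [← nsmul_eq_mul, ← sum_const]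
      refine le_trans (sum_le_sum fun p hp => ?_) (sum_le_sum_of_subset_of_nonneg
        (filter_subset _ _) fun p _ _ => ?_)
      · have hp2 := (mem_filter.1 hp).2
        rw [hQG] at hp2
        obtain ⟨g1, g2, g3, g4, g5, g6⟩ := hp2
        exact six_le hε.le g1 g2 g3 g4 g5 g6
      · have g1 := (hGU 0 1 p.1 p.2.1).1
        have g2 := (hGU 0 2 p.1 p.2.2.1).1
        have g3 := (hGU 0 3 p.1 p.2.2.2).1
        have g4 := (hGU 1 2 p.2.1 p.2.2.1).1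
        have g5 := (hGU 1 3 p.2.1 p.2.2.2).1
        have g6 := (hGU 2 3 p.2.2.1 p.2.2.2).1
        positivity
    have h4 : ε / (4 * (n : ℝ) ^ 4) * Nn ≤ (((V 0 ×ˢ V 1 ×ˢ V 2 ×ˢ V 3).filter (fun p =>
          QG p.1 p.2.1 p.2.2.1 p.2.2.2)).card : ℝ) := by
      refine le_trans ?_ (hcount.trans (le_trans (le_of_eq ?_) h1))
      · rw [hNn, hV]
      · congr!
    calc ε ^ 6 * (ε / (4 * (n : ℝ) ^ 4) * Nn) ≤ ε ^ 6 * _ :=
          mul_le_mul_of_nonneg_left h4 (by positivity)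
      _ ≤ _ := by rw [mul_comm]; exact h3
  -- upper bound for the sum of the kernels
  obtain ⟨QH, hQH⟩ : ∃ QH : ℕ × ℕ → ℕ × ℕ → ℕ × ℕ → ℕ × ℕ → Prop, QH = fun x0 x1 x2 x3 =>
    H 0 1 x0 x1 ≠ 0 ∧ H 0 2 x0 x2 ≠ 0 ∧ H 0 3 x0 x3 ≠ 0 ∧
        H 1 2 x1 x2 ≠ 0 ∧ H 1 3 x1 x3 ≠ 0 ∧ H 2 3 x2 x3 ≠ 0 := ⟨_, rfl⟩
  have hup : ∑ p ∈ V 0 ×ˢ V 1 ×ˢ V 2 ×ˢ V 3, (H 0 1 p.1 p.2.1 * H 0 2 p.1 p.2.2.1 *
        H 0 3 p.1 p.2.2.2 * H 1 2 p.2.1 p.2.2.1 * H 1 3 p.2.1 p.2.2.2 * H 2 3 p.2.2.1 p.2.2.2) ≤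
      (((Fintype.piFinset (fun a => range R ×ˢ range (L (e a)))).filter (fun w => ∀ a b, a < b →
          ∃ y : ℕ, y + m ^ (2 * R * ((e b : ℕ) - e a) + (w b).1 - (w a).1) * (X (e a) + (w a).2) =
            X (e b) + (w b).2 ∧ Bd (2 * R * ((e b : ℕ) - e a) + (w b).1 - (w a).1) y)).card : ℝ) := by
    have h1 : ∑ p ∈ V 0 ×ˢ V 1 ×ˢ V 2 ×ˢ V 3, (H 0 1 p.1 p.2.1 * H 0 2 p.1 p.2.2.1 *
        H 0 3 p.1 p.2.2.2 * H 1 2 p.2.1 p.2.2.1 * H 1 3 p.2.1 p.2.2.2 * H 2 3 p.2.2.1 p.2.2.2) ≤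
        (((V 0 ×ˢ V 1 ×ˢ V 2 ×ˢ V 3).filter (fun p =>
          QH p.1 p.2.1 p.2.2.1 p.2.2.2)).card : ℝ) := by
      rw [card_filter]
      push_cast
      refine sum_le_sum fun p _ => ?_
      have g1 := hHU 0 1 p.1 p.2.1
      have g2 := hHU 0 2 p.1 p.2.2.1
      have g3 := hHU 0 3 p.1 p.2.2.2
      have g4 := hHU 1 2 p.2.1 p.2.2.1
      have g5 := hHU 1 3 p.2.1 p.2.2.2
      have g6 := hHU 2 3 p.2.2.1 p.2.2.2
      split_ifs with hc
      · exact (mul01 (mul01 (mul01 (mul01 (mul01 g1 g2) g3) g4) g5) g6).2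
      · refine le_of_eq ?_
        by_contra hne
        apply hc
        rw [hQH]
        refine ⟨?_, ?_, ?_, ?_, ?_, ?_⟩ <;> intro h0 <;> apply hne <;> rw [h0] <;> ring
    refine h1.trans ?_
    rw [← pi4 V QH, Nat.cast_le, hV]
    refine card_le_card fun w hw => ?_
    rw [mem_filter] at hw ⊢
    refine ⟨hw.1, ?_⟩
    have hw1 := Fintype.mem_piFinset.1 hw.1
    have hw2 := hw.2
    rw [hQH] at hw2
    have h2 := (forall_lt4 (fun a b => H a b (w a) (w b) ≠ 0)).2 hw2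
    intro a b hab
    have h3 := h2 a b hab
    simp only [hH] at h3
    exact kb_ne_zero Bd (X (e b)) (X (e a)) m K (2 * R * ((e b : ℕ) - e a)) (L (e a)) R hm
      (hD (e a) (e b) (he hab)).2 (w a) (w b) (hw1 a) (hw1 b) h3
  refine le_trans ?_ hup
  rw [abs_le] at key
  have hfin : ε ^ 7 / (8 * (n : ℝ) ^ 4) * Nn = ε ^ 6 * (ε / (4 * (n : ℝ) ^ 4) * Nn) - 6 * h * Nn := by
    rw [hh]
    field_simp
    ring
  have hN' : (∏ a, (((range R ×ˢ range (L (e a))).card : ℕ) : ℝ)) = Nn := by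
    rw [hNn, hV]
  rw [hN', hfin]
  linarith [key.1]

end

end Pool.Agent.U570.AF
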