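import Pool.Agent.U570.AF.Phys

/-! Densities of the pairs of vertices whose window contains many bad constants, and the cut norm with
the boundary removed. -/

set_option autoImplicit false

namespace Pool.Agent.U570.AF

open Finset

noncomputable section

open Classical in
/-- the indicator function of the bad constants, on `ZMod P` -/
def bf (Bd : ℕ → ℕ → Prop) (X P k : ℕ) (z : ZMod P) : ℝ := if Bd k (X + z.val) then 1 else 0

theorem bf_nonneg (Bd : ℕ → ℕ → Prop) (X P k : ℕ) (z : ZMod P) : 0 ≤ bf Bd X P k z := by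
  unfold bf; split_ifs <;> norm_num

theorem bf_le (Bd : ℕ → ℕ → Prop) (X P k : ℕ) (z : ZMod P) : bf Bd X P k z ≤ 1 := by
  unfold bf; split_ifs <;> norm_num

theorem ravg_shift {P : ℕ} (S : Finset ℕ) (M : ℕ) (f : ZMod P → ℝ) (c z : ZMod P) :
    ravg S M (fun w => f (w - c)) z = ravg S M f (z - c) := by
  unfold ravg
  have h : ∀ t : ℕ, z + ((M * t : ℕ) : ZMod P) - c = z - c + ((M * t : ℕ) : ZMod P) := fun t => by ring
  simp_rw [h]

open Classical in
/-- the density of windows with many bad constants, on the cyclic group -/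
theorem dens {P : ℕ} [NeZero P] (Bd : ℕ → ℕ → Prop) (X k M B : ℕ) (S : Finset ℕ) (hS : S.Nonempty)
    (hB : ∀ t ∈ S, t ≤ B) (ε : ℝ) (hMB : (M * B : ℝ) ≤ ε / 2 * P)
    (h : (2 / 3 + ε) * P ≤ (((range P).filter (fun z => ε * S.card ≤
      ((S.filter (fun t => Bd k (X + z + M * t))).card : ℝ))).card : ℝ)) :
    (2 / 3 + ε / 2) * P ≤
      (((univ : Finset (ZMod P)).filter (fun x => ε ≤ ravg S M (bf Bd X P k) x)).card : ℝ) := by
  have hS0 : (0 : ℝ) < S.card := by exact_mod_cast card_pos.2 hS
  obtain ⟨A, hA⟩ : ∃ A, A = (range P).filter (fun z => ε * S.card ≤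
      ((S.filter (fun t => Bd k (X + z + M * t))).card : ℝ)) := ⟨_, rfl⟩
  rw [← hA] at h
  have h1 : (A.card : ℝ) ≤ ((A.filter (fun z => z + M * B < P)).card : ℝ) + M * B := by
    have h2 := Finset.card_filter_add_card_filter_not (s := A) (fun z => z + M * B < P)
    have h3 : (A.filter (fun z => ¬ z + M * B < P)).card ≤ M * B := by
      have h4 : A.filter (fun z => ¬ z + M * B < P) ⊆ Ico (P - M * B) P := by
        intro z hz
        rw [mem_filter] at hz
        have h5 : z < P := by
          have := hz.1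
          rw [hA, mem_filter] at this
          exact mem_range.1 this.1
        rw [mem_Ico]
        omega
      refine (card_le_card h4).trans ?_
      rw [Nat.card_Ico]
      omega
    have h6 : (A.card : ℝ) = ((A.filter (fun z => z + M * B < P)).card : ℝ) +
        ((A.filter (fun z => ¬ z + M * B < P)).card : ℝ) := by exact_mod_cast h2.symm
    have h7 : ((A.filter (fun z => ¬ z + M * B < P)).card : ℝ) ≤ M * B := by exact_mod_cast h3
    linarith
  have h8 : (A.filter (fun z => z + M * B < P)).card ≤
      ((univ : Finset (ZMod P)).filter (fun x => ε ≤ ravg S M (bf Bd X P k) x)).card := by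
    refine card_le_card_of_injOn (fun z => ((z : ℕ) : ZMod P)) ?_ ?_
    · intro z hz
      rw [mem_coe, mem_filter] at hz
      have hz1 := hz.1
      rw [hA, mem_filter] at hz1
      simp only [coe_filter, mem_univ, true_and, Set.mem_ofPred_eq]
      have h9 : ravg S M (bf Bd X P k) ((z : ℕ) : ZMod P) =
          (S.card : ℝ)⁻¹ * ((S.filter (fun t => Bd k (X + z + M * t))).card : ℝ) := by
        unfold ravg
        congr 1
        rw [card_filter]
        push_cast
        refine sum_congr rfl fun t ht => ?_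
        unfold bf
        have h10 : (((z : ℕ) : ZMod P) + ((M * t : ℕ) : ZMod P)).val = z + M * t := by
          rw [← Nat.cast_add]
          apply ZMod.val_cast_of_lt
          have := Nat.mul_le_mul_left M (hB t ht)
          omega
        have h11 : (((z : ℕ) : ZMod P) + (M : ZMod P) * (t : ZMod P)).val = z + M * t := by
          rw [← h10]; push_cast; rfl
        rw [h11, add_assoc]
      rw [h9, le_inv_mul_iff₀ hS0, mul_comm]
      exact hz1.2
    · intro z hz z' hz' hzz
      rw [mem_coe, mem_filter] at hz hz'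
      have e1 : z < P := by omega
      have e2 : z' < P := by omega
      have := congrArg ZMod.val hzz
      simp only at this
      rwa [ZMod.val_cast_of_lt e1, ZMod.val_cast_of_lt e2] at this
  have h9 : ((A.filter (fun z => z + M * B < P)).card : ℝ) ≤
      (((univ : Finset (ZMod P)).filter (fun x => ε ≤ ravg S M (bf Bd X P k) x)).card : ℝ) := by
    exact_mod_cast h8
  linarith

/-- the kernel functions of a pair of classes: `Y` is the left end point of the lower class -/
def bk (Bd : ℕ → ℕ → Prop) (X P m Y : ℕ) (k : ℕ) (z : ZMod P) : ℝ :=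
  bf Bd X P k (z - (m : ZMod P) ^ k * (Y : ZMod P))

open Classical in
/-- the density of edges -/
theorem edge_dens {P : ℕ} [NeZero P] (Bd : ℕ → ℕ → Prop) (X Y m K M B L R D : ℕ) (S : Finset ℕ)
    (hS : S.Nonempty) (hB : ∀ t ∈ S, t ≤ B) (ε : ℝ) (hMB : (M * B : ℝ) ≤ ε / 2 * P)
    (hD : R ≤ D) (hDK : D + R ≤ K)
    (h : ∀ k, 1 ≤ k → k ≤ K → (2 / 3 + ε) * P ≤ (((range P).filter (fun z => ε * S.card ≤
      ((S.filter (fun t => Bd k (X + z + M * t))).card : ℝ))).card : ℝ)) :
    (2 / 3 + ε / 2) * ((range R ×ˢ range L).card * (range R ×ˢ range P).card) ≤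
      ((((range R ×ˢ range L) ×ˢ (range R ×ˢ range P)).filter (fun x =>
        ε ≤ ker (fun k => ravg S M (bk Bd X P m Y k)) m D x.1 x.2)).card : ℝ) := by
  have h1 : ∀ v ∈ range R ×ˢ range L, ∀ s' ∈ range R, (2 / 3 + ε / 2) * P ≤
      ∑ b ∈ range P, (if ε ≤ ker (fun k => ravg S M (bk Bd X P m Y k)) m D v (s', b) then (1 : ℝ) else 0) := by
    intro v hv s' hs'
    rw [mem_product, mem_range, mem_range] at hv
    rw [mem_range] at hs'
    have h2 := dens Bd X (D + s' - v.1) M B S hS hB ε hMB (h _ (by omega) (by omega))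
    refine h2.trans (le_of_eq ?_)
    have h3 := sum_zmod (P := P) (fun z => if ε ≤ ravg S M (bk Bd X P m Y (D + s' - v.1))
      (z - (m : ZMod P) ^ (D + s' - v.1) * (v.2 : ZMod P)) then (1 : ℝ) else 0)
    unfold ker
    simp only
    rw [← h3]
    have h4 : ∀ z : ZMod P, ravg S M (bk Bd X P m Y (D + s' - v.1))
        (z - (m : ZMod P) ^ (D + s' - v.1) * (v.2 : ZMod P)) =
        ravg S M (bf Bd X P (D + s' - v.1)) (z - ((m : ZMod P) ^ (D + s' - v.1) * (v.2 : ZMod P) +
          (m : ZMod P) ^ (D + s' - v.1) * (Y : ZMod P))) := by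
      intro z
      have := ravg_shift S M (bf Bd X P (D + s' - v.1)) ((m : ZMod P) ^ (D + s' - v.1) * (Y : ZMod P))
        (z - (m : ZMod P) ^ (D + s' - v.1) * (v.2 : ZMod P))
      unfold bk
      rw [this]
      congr 1
      ring
    simp_rw [h4]
    rw [card_filter]
    push_cast
    exact ((Equiv.subRight _).sum_comp (fun z : ZMod P =>
      if ε ≤ ravg S M (bf Bd X P (D + s' - v.1)) z then (1 : ℝ) else 0)).symm
  have h5 : ((((range R ×ˢ range L) ×ˢ (range R ×ˢ range P)).filter (fun x =>
        ε ≤ ker (fun k => ravg S M (bk Bd X P m Y k)) m D x.1 x.2)).card : ℝ) =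
      ∑ v ∈ range R ×ˢ range L, ∑ s' ∈ range R, ∑ b ∈ range P,
        (if ε ≤ ker (fun k => ravg S M (bk Bd X P m Y k)) m D v (s', b) then (1 : ℝ) else 0) := by
    rw [card_filter]
    push_cast
    rw [sum_product]
    refine sum_congr rfl fun v _ => ?_
    rw [sum_product]
  rw [h5]
  calc (2 / 3 + ε / 2) * (((range R ×ˢ range L).card : ℝ) * (range R ×ˢ range P).card) =
      ∑ v ∈ range R ×ˢ range L, ∑ s' ∈ range R, (2 / 3 + ε / 2) * P := by
        rw [sum_const, sum_const, card_range, nsmul_eq_mul, nsmul_eq_mul]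
        have : (((range R ×ˢ range P).card : ℕ) : ℝ) = R * P := by
          rw [card_product, card_range, card_range]
          push_cast
          rfl
        rw [this]
        ring
    _ ≤ _ := sum_le_sum fun v hv => sum_le_sum fun s' hs' => h1 v hv s' hs'

end

end Pool.Agent.U570.AF
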