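import Mathlib

/-! Fourier analysis on `ZMod P`: Parseval, translations, averages, almost orthogonality of characters
on an interval. -/

set_option autoImplicit false

namespace Pool.Agent.U570.AF

open Finset

noncomputable section

variable {P : ℕ} [NeZero P]

/-- the standard character -/
abbrev ψ : AddChar (ZMod P) ℂ := ZMod.stdAddChar

/-- Fourier coefficients of a function on `ZMod P` -/
def ft (f : ZMod P → ℂ) (θ : ZMod P) : ℂ := (P : ℂ)⁻¹ * ∑ x, f x * ψ (-(θ * x))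

theorem norm_psi (x : ZMod P) : ‖(ψ x : ℂ)‖ = 1 := AddChar.norm_apply _ _

theorem conj_psi (x : ZMod P) : (starRingEnd ℂ) (ψ x : ℂ) = ψ (-x) :=
  (AddChar.map_neg_eq_conj _ _).symm

theorem orth (a : ZMod P) : ∑ x : ZMod P, (ψ (x * a) : ℂ) = if a = 0 then (P : ℂ) else 0 := by
  have h := AddChar.sum_mulShift (R := ZMod P) (R' := ℂ) (ψ := ZMod.stdAddChar) a
    (ZMod.isPrimitive_stdAddChar P)
  rw [ZMod.card] at h
  rw [h]
  split_ifs <;> simp

theorem P_ne : (P : ℂ) ≠ 0 := Nat.cast_ne_zero.2 (NeZero.ne P)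

theorem parseval (f g : ZMod P → ℂ) :
    ∑ x, f x * g x = P * ∑ θ, ft f θ * ft g (-θ) := by
  have hP : (P : ℂ) ≠ 0 := P_ne
  have h1 : ∀ θ : ZMod P, ft f θ * ft g (-θ) =
      (P : ℂ)⁻¹ * (P : ℂ)⁻¹ * ∑ x, ∑ y, f x * g y * ψ (θ * (y - x)) := by
    intro θ
    unfold ft
    rw [mul_mul_mul_comm, Finset.sum_mul_sum]
    congr 1
    refine sum_congr rfl fun x _ => sum_congr rfl fun y _ => ?_
    have : (ψ (θ * (y - x)) : ℂ) = ψ (-(θ * x)) * ψ (-(-θ * y)) := by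
      rw [← AddChar.map_add_eq_mul]
      congr 1
      ring
    rw [this]
    ring
  simp_rw [h1]
  rw [← mul_sum, sum_comm]
  have h2 : ∀ x : ZMod P, ∑ θ : ZMod P, ∑ y, f x * g y * (ψ (θ * (y - x)) : ℂ) = P * (f x * g x) := by
    intro x
    rw [sum_comm]
    have h3 : ∀ y : ZMod P, ∑ θ : ZMod P, f x * g y * (ψ (θ * (y - x)) : ℂ) =
        f x * g y * (if y - x = 0 then (P : ℂ) else 0) := by
      intro y
      rw [← mul_sum, orth]
    simp_rw [h3]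
    rw [sum_eq_single x]
    · simp; ring
    · intro y _ hy
      rw [if_neg (sub_ne_zero.2 hy), mul_zero]
    · intro h; exact absurd (mem_univ x) h
  simp_rw [h2]
  rw [← mul_sum]
  field_simp

theorem ft_conj (f : ZMod P → ℂ) (θ : ZMod P) :
    ft (fun x => (starRingEnd ℂ) (f x)) (-θ) = (starRingEnd ℂ) (ft f θ) := by
  unfold ft
  rw [map_mul, map_inv₀, Complex.conj_natCast, map_sum]
  congr 1
  refine sum_congr rfl fun x _ => ?_
  rw [map_mul, conj_psi]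
  congr 2
  ring

theorem bessel (f : ZMod P → ℂ) : ∑ θ, ‖ft f θ‖ ^ 2 = (P : ℝ)⁻¹ * ∑ x, ‖f x‖ ^ 2 := by
  have hP : (P : ℂ) ≠ 0 := P_ne
  have h := parseval f (fun x => (starRingEnd ℂ) (f x))
  simp_rw [ft_conj, Complex.mul_conj, Complex.normSq_eq_norm_sq] at h
  have h2 : ((∑ x, ‖f x‖ ^ 2 : ℝ) : ℂ) = ((P * ∑ θ, ‖ft f θ‖ ^ 2 : ℝ) : ℂ) := by
    push_cast
    push_cast at h
    exact h
  have h3 : (∑ x, ‖f x‖ ^ 2 : ℝ) = P * ∑ θ, ‖ft f θ‖ ^ 2 := by exact_mod_cast h2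
  rw [h3]
  have hPr : (P : ℝ) ≠ 0 := Nat.cast_ne_zero.2 (NeZero.ne P)
  field_simp

theorem bessel_le (f : ZMod P → ℂ) (hf : ∀ x, ‖f x‖ ≤ 1) : ∑ θ, ‖ft f θ‖ ^ 2 ≤ 1 := by
  rw [bessel]
  have hP : (0 : ℝ) < P := Nat.cast_pos.2 (Nat.pos_of_ne_zero (NeZero.ne P))
  rw [inv_mul_le_iff₀ hP, mul_one]
  calc ∑ x : ZMod P, ‖f x‖ ^ 2 ≤ ∑ _x : ZMod P, (1 : ℝ) := by
        refine sum_le_sum fun x _ => ?_
        exact pow_le_one₀ (norm_nonneg _) (hf x)
    _ = P := by simp [ZMod.card]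

theorem ft_sub (f g : ZMod P → ℂ) (θ : ZMod P) :
    ft (fun x => f x - g x) θ = ft f θ - ft g θ := by
  unfold ft
  rw [← mul_sub, ← sum_sub_distrib]
  congr 1
  exact sum_congr rfl fun x _ => by ring

theorem ft_shift (f : ZMod P → ℂ) (a θ : ZMod P) :
    ft (fun x => f (x + a)) θ = ψ (θ * a) * ft f θ := by
  have h : ∑ x : ZMod P, f (x + a) * (ψ (-(θ * x)) : ℂ) =
      ψ (θ * a) * ∑ x : ZMod P, f x * ψ (-(θ * x)) := by
    rw [mul_sum, ← Equiv.sum_comp (Equiv.subRight a) (fun x => f (x + a) * (ψ (-(θ * x)) : ℂ))]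
    refine sum_congr rfl fun x _ => ?_
    simp only [Equiv.subRight_apply, sub_add_cancel]
    have : (ψ (-(θ * (x - a))) : ℂ) = ψ (θ * a) * ψ (-(θ * x)) := by
      rw [← AddChar.map_add_eq_mul]
      congr 1
      ring
    rw [this]
    ring
  unfold ft
  rw [h]
  ring

/-- the average of a function over the translates by `M t`, `t ∈ S` -/
def avg (S : Finset ℕ) (M : ℕ) (f : ZMod P → ℂ) (x : ZMod P) : ℂ :=
  (S.card : ℂ)⁻¹ * ∑ t ∈ S, f (x + ((M * t : ℕ) : ZMod P))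

theorem ft_avg (S : Finset ℕ) (M : ℕ) (f : ZMod P → ℂ) (θ : ZMod P) :
    ft (avg S M f) θ = ((S.card : ℂ)⁻¹ * ∑ t ∈ S, (ψ (θ * ((M * t : ℕ) : ZMod P)) : ℂ)) * ft f θ := by
  have h1 : ft (avg S M f) θ =
      (S.card : ℂ)⁻¹ * ∑ t ∈ S, ft (fun x => f (x + ((M * t : ℕ) : ZMod P))) θ := by
    unfold ft avg
    rw [← mul_sum, mul_left_comm]
    congr 1
    rw [sum_comm, mul_sum]
    refine sum_congr rfl fun x _ => ?_
    rw [mul_assoc, sum_mul]
  rw [h1]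
  simp_rw [ft_shift]
  rw [← sum_mul, mul_assoc]

/-- the Fourier coefficient of the translate -/
theorem ft_neg_shift (f : ZMod P → ℂ) (a θ : ZMod P) :
    ft (fun x => f (x - a)) θ = ψ (-(θ * a)) * ft f θ := by
  have h := ft_shift f (-a) θ
  simp only [← sub_eq_add_neg, mul_neg] at h
  exact h

/-- correlation of a function with the translates of another one -/
theorem corr (f g : ZMod P → ℂ) (a : ZMod P) :
    ∑ x, f (x - a) * g x = P * ∑ θ, ft f θ * ft g (-θ) * ψ (-(θ * a)) := by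
  rw [parseval (fun x => f (x - a)) g]
  congr 1
  refine sum_congr rfl fun θ _ => ?_
  rw [ft_neg_shift]
  ring

/-- lower Fourier coefficient: of a function on an interval -/
def lt (L : ℕ) (u : ℕ → ℂ) (α : ZMod P) : ℂ := (L : ℂ)⁻¹ * ∑ b ∈ range L, u b * ψ (-(α * (b : ZMod P)))

theorem psi_nat (α : ZMod P) (b : ℕ) : (ψ (α * (b : ZMod P)) : ℂ) = (ψ α : ℂ) ^ b := by
  rw [← AddChar.map_nsmul_eq_pow, nsmul_eq_mul, mul_comm]

theorem norm_lt_le (L : ℕ) (u : ℕ → ℂ) (hu : ∀ b, ‖u b‖ ≤ 1) (α : ZMod P) : ‖lt L u α‖ ≤ 1 := by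
  unfold lt
  rcases Nat.eq_zero_or_pos L with h | h
  · subst h; simp
  rw [norm_mul, norm_inv, Complex.norm_natCast]
  have hL : (0 : ℝ) < L := by exact_mod_cast h
  rw [inv_mul_le_iff₀ hL, mul_one]
  calc ‖∑ b ∈ range L, u b * ψ (-(α * (b : ZMod P)))‖ ≤
      ∑ b ∈ range L, ‖u b * ψ (-(α * (b : ZMod P)))‖ := norm_sum_le _ _
    _ ≤ ∑ _b ∈ range L, (1 : ℝ) := by
        refine sum_le_sum fun b _ => ?_
        rw [norm_mul, norm_psi, mul_one]
        exact hu b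
    _ = L := by simp

/-- the bilinear form of the kernel `Φ (b' - a b)` -/
theorem bilin (Φ v : ZMod P → ℂ) (L : ℕ) (hL : 1 ≤ L) (u : ℕ → ℂ) (a : ZMod P) :
    ∑ b ∈ range L, ∑ x : ZMod P, Φ (x - a * (b : ZMod P)) * (u b * v x) =
      L * P * ∑ θ, ft Φ θ * ft v (-θ) * lt L u (a * θ) := by
  have hL0 : (L : ℂ) ≠ 0 := by exact_mod_cast (by omega : L ≠ 0)
  have h1 : ∀ b : ℕ, ∑ x : ZMod P, Φ (x - a * (b : ZMod P)) * (u b * v x) =
      ∑ θ, P * (ft Φ θ * ft v (-θ)) * (u b * ψ (-(a * θ * (b : ZMod P)))) := by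
    intro b
    have h2 := corr Φ v (a * (b : ZMod P))
    calc ∑ x : ZMod P, Φ (x - a * (b : ZMod P)) * (u b * v x) =
        u b * ∑ x : ZMod P, Φ (x - a * (b : ZMod P)) * v x := by
          rw [mul_sum]
          exact sum_congr rfl fun x _ => by ring
      _ = _ := by
          rw [h2, mul_sum, mul_sum]
          refine sum_congr rfl fun θ _ => ?_
          have : -(θ * (a * (b : ZMod P))) = -(a * θ * (b : ZMod P)) := by ring
          rw [this]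
          ring
  simp_rw [h1]
  rw [sum_comm, mul_sum]
  refine sum_congr rfl fun θ _ => ?_
  unfold lt
  rw [← mul_sum]
  field_simp

/-- almost orthogonality -/
theorem halasz {ι : Type} (S : Finset ι) (L : ℕ) (hL : 1 ≤ L) (u : ℕ → ℂ) (hu : ∀ b, ‖u b‖ ≤ 1)
    (α : ι → ZMod P) (ρ : ℝ) (hρ : 0 ≤ ρ)
    (h : ∀ i ∈ S, ∀ j ∈ S, i ≠ j → ‖∑ b ∈ range L, (ψ ((α i - α j) * (b : ZMod P)) : ℂ)‖ ≤ ρ * L) :
    ∑ i ∈ S, ‖lt L u (α i)‖ ^ 2 ≤ 1 + ρ * S.card := by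
  classical
  have hL0 : (0 : ℝ) < L := by exact_mod_cast hL
  have hLc : (L : ℂ) ≠ 0 := by exact_mod_cast (by omega : L ≠ 0)
  set c : ι → ℂ := fun i => lt L u (α i) with hc
  set T : ℝ := ∑ i ∈ S, ‖c i‖ ^ 2 with hT
  have hT0 : 0 ≤ T := sum_nonneg fun i _ => by positivity
  set w : ℕ → ℂ := fun b => ∑ i ∈ S, (starRingEnd ℂ) (c i) * ψ (-(α i * (b : ZMod P))) with hw
  have e1 : (T : ℂ) = (L : ℂ)⁻¹ * ∑ b ∈ range L, u b * w b := by
    have : ∀ i ∈ S, ((‖c i‖ ^ 2 : ℝ) : ℂ) =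
        (L : ℂ)⁻¹ * ∑ b ∈ range L, u b * ((starRingEnd ℂ) (c i) * ψ (-(α i * (b : ZMod P)))) := by
      intro i _
      have h2 : ((‖c i‖ ^ 2 : ℝ) : ℂ) = (starRingEnd ℂ) (c i) * c i := by
        rw [mul_comm, Complex.mul_conj, Complex.normSq_eq_norm_sq]
      rw [h2]
      conv_lhs => rw [show c i = (L : ℂ)⁻¹ * ∑ b ∈ range L, u b * ψ (-(α i * (b : ZMod P))) from rfl]
      rw [mul_left_comm, mul_sum]
      congr 1
      refine sum_congr rfl fun b _ => ?_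
      rw [show (starRingEnd ℂ) ((L : ℂ)⁻¹ * ∑ b ∈ range L, u b * ψ (-(α i * (b : ZMod P)))) =
        (starRingEnd ℂ) (c i) from rfl]
      ring
    rw [hT]
    push_cast
    push_cast at this
    rw [sum_congr rfl this, ← mul_sum, sum_comm]
    congr 1
    refine sum_congr rfl fun b _ => ?_
    rw [hw]
    simp only
    rw [mul_sum]
  -- Cauchy-Schwarz
  have e2 : T ^ 2 ≤ (L : ℝ)⁻¹ * ∑ b ∈ range L, ‖w b‖ ^ 2 := by
    have h3 : T ≤ (L : ℝ)⁻¹ * ∑ b ∈ range L, ‖w b‖ := by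
      have h4 : T = ‖(T : ℂ)‖ := by rw [Complex.norm_real, Real.norm_of_nonneg hT0]
      rw [h4, e1, norm_mul, norm_inv, Complex.norm_natCast]
      refine mul_le_mul_of_nonneg_left ?_ (by positivity)
      refine (norm_sum_le _ _).trans (sum_le_sum fun b _ => ?_)
      rw [norm_mul]
      exact mul_le_of_le_one_left (norm_nonneg _) (hu b)
    have h5 : (∑ b ∈ range L, ‖w b‖) ^ 2 ≤ L * ∑ b ∈ range L, ‖w b‖ ^ 2 := by
      have := sq_sum_le_card_mul_sum_sq (s := range L) (f := fun b => ‖w b‖)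
      rwa [card_range] at this
    calc T ^ 2 ≤ ((L : ℝ)⁻¹ * ∑ b ∈ range L, ‖w b‖) ^ 2 := pow_le_pow_left₀ hT0 h3 2
      _ = ((L : ℝ)⁻¹) ^ 2 * (∑ b ∈ range L, ‖w b‖) ^ 2 := by ring
      _ ≤ ((L : ℝ)⁻¹) ^ 2 * (L * ∑ b ∈ range L, ‖w b‖ ^ 2) :=
          mul_le_mul_of_nonneg_left h5 (by positivity)
      _ = _ := by field_simp
  -- expansion of the square
  have e3 : ∑ b ∈ range L, ‖w b‖ ^ 2 ≤ L * T + ρ * L * (∑ i ∈ S, ‖c i‖) ^ 2 := by
    have h6 : ((∑ b ∈ range L, ‖w b‖ ^ 2 : ℝ) : ℂ) =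
        ∑ i ∈ S, ∑ j ∈ S, (c i * (starRingEnd ℂ) (c j)) *
          ∑ b ∈ range L, (ψ ((α i - α j) * (b : ZMod P)) : ℂ) := by
      push_cast
      have h7 : ∀ b : ℕ, ((‖w b‖ : ℂ)) ^ 2 = ∑ i ∈ S, ∑ j ∈ S, (c i * (starRingEnd ℂ) (c j)) *
          (ψ ((α i - α j) * (b : ZMod P)) : ℂ) := by
        intro b
        have h8 : ((‖w b‖ : ℂ)) ^ 2 = (starRingEnd ℂ) (w b) * w b := by
          rw [mul_comm, Complex.mul_conj, Complex.normSq_eq_norm_sq]
          push_cast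
          rfl
        rw [h8, hw]
        simp only
        rw [map_sum, Finset.sum_mul_sum]
        refine sum_congr rfl fun i _ => sum_congr rfl fun j _ => ?_
        rw [map_mul, Complex.conj_conj, conj_psi]
        have h9 : (ψ ((α i - α j) * (b : ZMod P)) : ℂ) =
            ψ (-(-(α i * (b : ZMod P)))) * ψ (-(α j * (b : ZMod P))) := by
          rw [← AddChar.map_add_eq_mul]
          congr 1
          ring
        rw [h9]
        ring
      simp_rw [h7]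
      rw [sum_comm]
      refine sum_congr rfl fun i _ => ?_
      rw [sum_comm]
      refine sum_congr rfl fun j _ => ?_
      rw [← mul_sum]
    have h10 : (∑ b ∈ range L, ‖w b‖ ^ 2 : ℝ) ≤ ∑ i ∈ S, ∑ j ∈ S, ‖c i‖ * ‖c j‖ *
        ‖∑ b ∈ range L, (ψ ((α i - α j) * (b : ZMod P)) : ℂ)‖ := by
      have h11 : (∑ b ∈ range L, ‖w b‖ ^ 2 : ℝ) = ‖((∑ b ∈ range L, ‖w b‖ ^ 2 : ℝ) : ℂ)‖ := by
        rw [Complex.norm_real, Real.norm_of_nonneg (sum_nonneg fun b _ => by positivity)]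
      rw [h11, h6]
      refine (norm_sum_le _ _).trans (sum_le_sum fun i _ => ?_)
      refine (norm_sum_le _ _).trans (sum_le_sum fun j _ => ?_)
      rw [norm_mul, norm_mul, RCLike.norm_conj]
    refine h10.trans ?_
    have h12 : ∀ i ∈ S, ∀ j ∈ S, ‖c i‖ * ‖c j‖ *
        ‖∑ b ∈ range L, (ψ ((α i - α j) * (b : ZMod P)) : ℂ)‖ ≤
        (if i = j then L * ‖c i‖ ^ 2 else 0) + ρ * L * (‖c i‖ * ‖c j‖) := by
      intro i hi j hj
      by_cases hij : i = j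
      · subst hij
        rw [if_pos rfl]
        have h13 : ∑ b ∈ range L, (ψ ((α i - α i) * (b : ZMod P)) : ℂ) = L := by
          simp
        rw [h13, Complex.norm_natCast]
        have : 0 ≤ ρ * L * (‖c i‖ * ‖c i‖) := by positivity
        nlinarith
      · rw [if_neg hij, zero_add]
        have := h i hi j hj hij
        calc ‖c i‖ * ‖c j‖ * ‖∑ b ∈ range L, (ψ ((α i - α j) * (b : ZMod P)) : ℂ)‖ ≤
            ‖c i‖ * ‖c j‖ * (ρ * L) := mul_le_mul_of_nonneg_left this (by positivity)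
          _ = _ := by ring
    refine (sum_le_sum fun i hi => sum_le_sum fun j hj => h12 i hi j hj).trans ?_
    simp_rw [sum_add_distrib]
    have h14 : ∑ i ∈ S, ∑ j ∈ S, (if i = j then (L : ℝ) * ‖c i‖ ^ 2 else 0) = L * T := by
      rw [hT, mul_sum]
      refine sum_congr rfl fun i hi => ?_
      rw [sum_ite_eq, if_pos hi]
    have h15 : ∑ i ∈ S, ∑ j ∈ S, ρ * L * (‖c i‖ * ‖c j‖) = ρ * L * (∑ i ∈ S, ‖c i‖) ^ 2 := by
      simp_rw [← mul_sum]
      rw [← sum_mul]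
      ring
    rw [h14, h15]
  have e4 : (∑ i ∈ S, ‖c i‖) ^ 2 ≤ S.card * T := sq_sum_le_card_mul_sum_sq
  have e5 : T ^ 2 ≤ (1 + ρ * S.card) * T := by
    calc T ^ 2 ≤ (L : ℝ)⁻¹ * ∑ b ∈ range L, ‖w b‖ ^ 2 := e2
      _ ≤ (L : ℝ)⁻¹ * (L * T + ρ * L * (S.card * T)) := by
          refine mul_le_mul_of_nonneg_left (e3.trans ?_) (by positivity)
          have := mul_le_mul_of_nonneg_left e4 (by positivity : 0 ≤ ρ * L)
          linarith
      _ = _ := by field_simp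
  rcases eq_or_lt_of_le hT0 with h0 | h0
  · rw [← h0]; positivity
  · have : T * T ≤ (1 + ρ * S.card) * T := by rw [← sq]; exact e5
    exact le_of_mul_le_mul_right this h0

/-- geometric sums -/
theorem geom (β : ZMod P) (L : ℕ) (δ : ℝ) (hδ : 0 < δ) (h : δ ≤ ‖1 - (ψ β : ℂ)‖) :
    ‖∑ b ∈ range L, (ψ (β * (b : ZMod P)) : ℂ)‖ ≤ 2 / δ := by
  simp_rw [psi_nat]
  have h1 : (ψ β : ℂ) ≠ 1 := by
    intro h2
    rw [h2, sub_self, norm_zero] at h
    linarith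
  rw [geom_sum_eq h1, norm_div]
  have h3 : ‖(ψ β : ℂ) ^ L - 1‖ ≤ 2 := by
    calc ‖(ψ β : ℂ) ^ L - 1‖ ≤ ‖(ψ β : ℂ) ^ L‖ + ‖(1 : ℂ)‖ := norm_sub_le _ _
      _ = 2 := by rw [norm_pow, norm_psi]; norm_num
  have h4 : ‖(ψ β : ℂ) - 1‖ = ‖1 - (ψ β : ℂ)‖ := norm_sub_rev _ _
  rw [h4]
  exact div_le_div₀ (by norm_num) h3 hδ h

/-- `1 - z ^ n` is at most `n` times `1 - z` -/
theorem one_sub_pow (z : ℂ) (hz : ‖z‖ = 1) (n : ℕ) : ‖1 - z ^ n‖ ≤ n * ‖1 - z‖ := by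
  induction n with
  | zero => simp
  | succ n ih =>
      have : 1 - z ^ (n + 1) = (1 - z ^ n) + z ^ n * (1 - z) := by ring
      rw [this]
      refine (norm_add_le _ _).trans ?_
      rw [norm_mul, norm_pow, hz, one_pow, one_mul]
      push_cast
      linarith

end

end Pool.Agent.U570.AF
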