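import Pool.Agent.U570.AF.NT

/-! Assembly. -/

set_option autoImplicit false

namespace Pool.Agent.U570.AF

open Finset Filter

open Classical in
theorem main (ε : ℝ) (hε : 0 < ε) : ∃ K : ℕ, ∀ m : ℕ, 2 ≤ m → ∀ M : ℕ,
    (∀ j k : ℕ, j < k → k ≤ K → (m ^ k - m ^ j) ∣ M) → ∀ β : ℤ, IsCoprime β (6 * m) →
    ∀ S : Finset ℕ, S.Nonempty → ∃ Y₀ : ℕ, ∀ Y : ℕ, Y₀ ≤ Y → ∀ X : ℕ, ∃ k : ℕ, 1 ≤ k ∧ k ≤ K ∧
    (1 / 3 - ε) * (Y : ℝ) ≤ (((Ico X (X + Y)).filter (fun x => (1 - ε) * (S.card : ℝ) ≤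
      ((S.filter (fun t => GoodE 1 (m ^ k)
        (β * (1 - (m : ℤ) ^ k) + 6 * m * ((x + M * t : ℕ) : ℤ)))).card : ℝ))).card : ℝ) := by
  rcases le_or_gt (1 / 3) ε with hε3 | hε3
  · refine ⟨1, fun m _ M _ β _ S _ => ⟨0, fun Y _ X => ⟨1, le_rfl, le_rfl, ?_⟩⟩⟩
    refine le_trans ?_ (Nat.cast_nonneg _)
    exact mul_nonpos_of_nonpos_of_nonneg (by linarith) (Nat.cast_nonneg _)
  obtain ⟨n, R, hn, hR, c, hc, hcore⟩ := core ε hε hε3.le
  obtain ⟨C, δ, hC, hδ, hnt⟩ := nt_bound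
  obtain ⟨N, hN1, hN⟩ : ∃ N : ℕ, 1 ≤ N ∧ C * (N : ℝ) ^ (-δ) < c := by
    have h1 : Tendsto (fun N : ℕ => C * (N : ℝ) ^ (-δ)) atTop (nhds (C * 0)) :=
      ((tendsto_rpow_neg_atTop hδ).comp tendsto_natCast_atTop_atTop).const_mul C
    rw [mul_zero] at h1
    have h2 := (h1.eventually (gt_mem_nhds hc)).and (eventually_ge_atTop 1)
    obtain ⟨N, h3, h4⟩ := h2.exists
    exact ⟨N, h4, h3⟩
  refine ⟨2 * R * n, fun m hm M hM β hβ S hS => ?_⟩
  by_contra hcon
  push Not at hcon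
  obtain ⟨W, hW, hfin⟩ := hcore m (by omega) M hM S hS
  choose fY hfY fX hbad using hcon
  obtain ⟨T, hT0, hT⟩ : ∃ T : ℕ → ℕ, T 0 = W + N ∧
      ∀ j, T (j + 1) = W * (fY (T j) + fX (T j)) + fY (T j) := by
    refine ⟨fun j => Nat.rec (W + N) (fun _ t => W * (fY t + fX t) + fY t) j, rfl, fun j => rfl⟩
  have hTm : Monotone T := by
    refine monotone_nat_of_le_succ fun j => ?_
    rw [hT]
    have := hfY (T j)
    exact this.trans (Nat.le_add_left _ _)
  have hTW : ∀ j, W + N ≤ T j := fun j => by rw [← hT0]; exact hTm (Nat.zero_le j)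
  obtain ⟨L, hL⟩ : ∃ L : Fin n → ℕ, L = fun i : Fin n => fY (T (i : ℕ)) := ⟨_, rfl⟩
  obtain ⟨X, hX⟩ : ∃ X : Fin n → ℕ, X = fun i : Fin n => fX (T (i : ℕ)) := ⟨_, rfl⟩
  have hLT : ∀ i : Fin n, T i ≤ L i := fun i => by rw [hL]; exact hfY _
  have hL1 : ∀ i, W ≤ L i := fun i => by have := hTW i; have := hLT i; omega
  have hL2 : ∀ i, N ≤ L i := fun i => by have := hTW i; have := hLT i; omega
  have hL3 : ∀ i j, i < j → W * (L i + X i) ≤ L j := by
    intro i j hij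
    have h1 : T ((i : ℕ) + 1) ≤ T j := hTm (by have : (i : ℕ) < j := hij; omega)
    rw [hT] at h1
    have h2 := hLT j
    have h3 : W * (L i + X i) = W * (fY (T i) + fX (T i)) := by rw [hL, hX]
    rw [h3]
    omega
  obtain ⟨Bd, hBd⟩ : ∃ Bd : ℕ → ℕ → Prop, Bd = fun (k y : ℕ) => ¬ GoodE 1 (m ^ k)
    (β * (1 - (m : ℤ) ^ k) + 6 * m * (y : ℤ)) := ⟨_, rfl⟩
  obtain ⟨e, he, hcount⟩ := hfin L X hL1 hL3 Bd (by
    intro i k hk1 hk2
    have h1 := hbad (T i) k hk1 hk2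
    obtain ⟨Gd, hGd⟩ : ∃ Gd : ℕ → Prop, Gd = (fun x : ℕ => ((1 - ε) * (S.card : ℝ) ≤
      ((S.filter (fun t : ℕ => GoodE 1 (m ^ k)
        (β * (1 - (m : ℤ) ^ k) + 6 * m * ((x + M * t : ℕ) : ℤ)))).card : ℝ))) :=
      ⟨fun x : ℕ => ((1 - ε) * (S.card : ℝ) ≤
      ((S.filter (fun t : ℕ => GoodE 1 (m ^ k)
        (β * (1 - (m : ℤ) ^ k) + 6 * m * ((x + M * t : ℕ) : ℤ)))).card : ℝ)), rfl⟩
    have h2 : (((Ico (X i) (X i + L i)).filter Gd).card : ℝ) < (1 / 3 - ε) * (L i : ℝ) := by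
      rw [hGd, hX, hL]
      convert h1
    have h3 := Finset.card_filter_add_card_filter_not (s := Ico (X i) (X i + L i)) Gd
    rw [Nat.card_Ico, Nat.add_sub_cancel_left] at h3
    have h4 : (((Ico (X i) (X i + L i)).filter Gd).card : ℝ) +
        (((Ico (X i) (X i + L i)).filter (fun x => ¬ Gd x)).card : ℝ) = L i := by exact_mod_cast h3
    have h5 : ((Ico (X i) (X i + L i)).filter (fun x => ¬ Gd x)).card ≤
        ((range (L i)).filter (fun z => ε * S.card ≤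
        ((S.filter (fun t => Bd k (X i + z + M * t))).card : ℝ))).card := by
      refine card_le_card_of_injOn (fun x => x - X i) ?_ ?_
      · intro x hx
        rw [mem_coe, mem_filter, mem_Ico] at hx
        rw [mem_coe, mem_filter, mem_range]
        have hx1 : x - X i < L i := by omega
        refine ⟨hx1, ?_⟩
        have h6 := hx.2
        rw [hGd] at h6
        have h7 := not_le.1 h6
        have h8 := Finset.card_filter_add_card_filter_not (s := S) (fun t => GoodE 1 (m ^ k)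
          (β * (1 - (m : ℤ) ^ k) + 6 * m * ((x + M * t : ℕ) : ℤ)))
        have h9 : ((S.filter (fun t => GoodE 1 (m ^ k)
          (β * (1 - (m : ℤ) ^ k) + 6 * m * ((x + M * t : ℕ) : ℤ)))).card : ℝ) +
          ((S.filter (fun t => ¬ GoodE 1 (m ^ k)
          (β * (1 - (m : ℤ) ^ k) + 6 * m * ((x + M * t : ℕ) : ℤ)))).card : ℝ) = S.card := by
          exact_mod_cast h8
        have h10 : ((S.filter (fun t => Bd k (X i + (x - X i) + M * t))).card : ℝ) =
          ((S.filter (fun t => ¬ GoodE 1 (m ^ k)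
          (β * (1 - (m : ℤ) ^ k) + 6 * m * ((x + M * t : ℕ) : ℤ)))).card : ℝ) := by
          have : X i + (x - X i) = x := by omega
          rw [this, hBd]
          congr!
        simp only
        rw [h10]
        linarith
      · intro x hx x' hx' hxx
        rw [mem_coe, mem_filter, mem_Ico] at hx hx'
        simp only at hxx
        omega
    have h6 : (((Ico (X i) (X i + L i)).filter (fun x => ¬ Gd x)).card : ℝ) ≤
        (((range (L i)).filter (fun z => ε * S.card ≤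
        ((S.filter (fun t => Bd k (X i + z + M * t))).card : ℝ))).card : ℝ) := by
      exact_mod_cast h5
    linarith)
  have h1 := hnt N hN1 m hm β hβ n R hR L X hL2 e he
  rw [hBd] at hcount
  have h2 : 0 < ∏ a, (((range R ×ˢ range (L (e a))).card : ℕ) : ℝ) := by
    refine prod_pos fun a _ => ?_
    rw [card_product, card_range, card_range]
    have h3 : 0 < R * L (e a) := Nat.mul_pos hR (by have := hL1 (e a); omega)
    exact_mod_cast h3
  have h3 : c * ∏ a, (((range R ×ˢ range (L (e a))).card : ℕ) : ℝ) ≤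
      C * (N : ℝ) ^ (-δ) * ∏ a, (((range R ×ˢ range (L (e a))).card : ℕ) : ℝ) := by
    refine hcount.trans (le_trans (le_of_eq ?_) h1)
    congr!
  have h4 := le_of_mul_le_mul_right h3 h2
  linarith

end Pool.Agent.U570.AF
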