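import Pool.Agent.TH899.UG.PairsP
import Pool.Agent.U570.AF.Core

/-! Few quadruples of linear forms with slopes `6 m ^ (e + 1)` are bad. -/

set_option autoImplicit false

namespace Pool.Agent.U570.AF

open Finset Filter Pool.Agent.H362R2.CM Pool.Agent.TH899.UG
open Pool.Agent.H732R3.BigQ

/-- the hypotheses of the question -/
def AdmE (a b : ℕ) (c : ℤ) : Prop :=
  1 ≤ a ∧ 1 ≤ b ∧ c ≠ 0 ∧ IsCoprime (a : ℤ) b ∧ IsCoprime (a : ℤ) c ∧ IsCoprime (b : ℤ) c ∧
    ¬ (Odd a ∧ Odd b ∧ Odd c)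

/-- many prime solutions of an equation of the question -/
def GoodE (a b : ℕ) (c : ℤ) : Prop :=
  AdmE a b c ∧ {pq : ℕ × ℕ | pq.1.Prime ∧ pq.2.Prime ∧ (a : ℤ) * pq.1 - b * pq.2 = c}.Infinite ∧
    ∀ η : ℝ, 0 < η → ∃ᶠ x : ℝ in atTop, x ^ (1 - η) ≤
      ({q : ℕ | (q.Prime ∧ ∃ p : ℕ, p.Prime ∧ (a : ℤ) * p - b * q = c) ∧ (q : ℝ) ≤ x}.ncard : ℝ)

/-- the linear form of a vertex -/
def fm (m : ℕ) (β : ℤ) (E X : ℕ) (v : ℕ × ℕ) : ℤ × ℤ :=
  (6 * m * (m : ℤ) ^ (E + v.1), β + 6 * m * ((X : ℤ) + v.2))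

theorem fm_inj (m : ℕ) (hm : 2 ≤ m) (β : ℤ) (E X : ℕ) : Function.Injective (fm m β E X) := by
  intro v w h
  simp only [fm, Prod.mk.injEq] at h
  obtain ⟨h1, h2⟩ := h
  have hm0 : (6 * m : ℤ) ≠ 0 := by
    have : (m : ℤ) ≠ 0 := by exact_mod_cast (by omega : m ≠ 0)
    positivity
  have h3 : (m : ℤ) ^ (E + v.1) = (m : ℤ) ^ (E + w.1) := mul_left_cancel₀ hm0 h1
  have h4 : m ^ (E + v.1) = m ^ (E + w.1) := by exact_mod_cast h3
  have h5 := Nat.pow_right_injective hm h4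
  have h6 : (X : ℤ) + v.2 = X + w.2 := mul_left_cancel₀ hm0 (by linarith)
  refine Prod.ext ?_ ?_
  · omega
  · omega

theorem good_of_big (m : ℕ) (hm : 2 ≤ m) (β : ℤ) (hβ : IsCoprime β (6 * m)) (E E' X X' : ℕ)
    (v w : ℕ × ℕ) (k y : ℕ) (hk1 : 1 ≤ k) (hk : E + v.1 + k = E' + w.1)
    (hy : y + m ^ k * (X + v.2) = X' + w.2)
    (hbig : Big {n : ℕ | (0 < (fm m β E X v).1 * (n : ℤ) + (fm m β E X v).2 ∧
      Prime ((fm m β E X v).1 * (n : ℤ) + (fm m β E X v).2)) ∧
      (0 < (fm m β E' X' w).1 * (n : ℤ) + (fm m β E' X' w).2 ∧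
      Prime ((fm m β E' X' w).1 * (n : ℤ) + (fm m β E' X' w).2))}) :
    GoodE 1 (m ^ k) (β * (1 - (m : ℤ) ^ k) + 6 * m * y) := by
  obtain ⟨c, hc⟩ : ∃ c : ℤ, c = β * (1 - (m : ℤ) ^ k) + 6 * m * y := ⟨_, rfl⟩
  rw [← hc]
  have hyz : (y : ℤ) + (m : ℤ) ^ k * (X + v.2) = X' + w.2 := by exact_mod_cast hy
  have hkz : (m : ℤ) ^ (E' + w.1) = (m : ℤ) ^ (E + v.1) * (m : ℤ) ^ k := by
    rw [← pow_add, hk]
  have hfpos : 0 < (fm m β E X v).1 := by
    unfold fm
    have : (0 : ℤ) < m := by exact_mod_cast (by omega : 0 < m)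
    positivity
  have hB : Big {q : ℕ | q.Prime ∧ ∃ p : ℕ, p.Prime ∧ ((1 : ℕ) : ℤ) * (p : ℤ) -
      ((m ^ k : ℕ) : ℤ) * (q : ℤ) = c} := by
    have hfz : (((fm m β E X v).1.toNat : ℕ) : ℤ) = (fm m β E X v).1 := Int.toNat_of_nonneg hfpos.le
    refine Big.affine hbig (fm m β E X v).1.toNat (fm m β E X v).2 (by omega)
      (fun n => ((fm m β E X v).1 * (n : ℤ) + (fm m β E X v).2).toNat) ?_ ?_
    · intro n hn
      rw [hfz]
      exact Int.toNat_of_nonneg hn.1.1.le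
    · intro n hn
      obtain ⟨⟨h1, h2⟩, h3, h4⟩ := hn
      refine ⟨?_, ((fm m β E' X' w).1 * (n : ℤ) + (fm m β E' X' w).2).toNat, ?_, ?_⟩
      · rw [Nat.prime_iff_prime_int, Int.toNat_of_nonneg h1.le]
        exact h2
      · rw [Nat.prime_iff_prime_int, Int.toNat_of_nonneg h3.le]
        exact h4
      · rw [Int.toNat_of_nonneg h1.le, Int.toNat_of_nonneg h3.le, hc]
        unfold fm
        simp only
        rw [hkz]
        push_cast
        linear_combination (-6 * (m : ℤ)) * hyz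
  have hInf : {pq : ℕ × ℕ | pq.1.Prime ∧ pq.2.Prime ∧ ((1 : ℕ) : ℤ) * pq.1 -
      ((m ^ k : ℕ) : ℤ) * pq.2 = c}.Infinite := by
    apply Set.Infinite.of_image Prod.snd
    refine hB.infinite.mono ?_
    rintro q ⟨hq, p, hp, hpq⟩
    exact ⟨(p, q), ⟨hp, hq, hpq⟩, rfl⟩
  have hmk : 2 ≤ m ^ k := by
    calc 2 ≤ m := hm
      _ = m ^ 1 := (pow_one m).symm
      _ ≤ m ^ k := Nat.pow_le_pow_right (by omega) hk1
  refine ⟨⟨le_rfl, by omega, ?_, ?_, ?_, ?_, ?_⟩, hInf, hB⟩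
  · rintro hc0
    obtain ⟨⟨p, q⟩, hp, hq, hpq⟩ := hInf.nonempty
    simp only at hp hq hpq
    rw [hc0] at hpq
    have h1 : (p : ℤ) = ((m ^ k * q : ℕ) : ℤ) := by push_cast at hpq ⊢; linarith
    have h2 : p = m ^ k * q := by exact_mod_cast h1
    rw [h2] at hp
    exact Nat.not_prime_mul (by omega) hq.one_lt.ne' hp
  · rw [Nat.cast_one]; exact isCoprime_one_left
  · rw [Nat.cast_one]; exact isCoprime_one_left
  · have h1 : IsCoprime (m : ℤ) β := (IsCoprime.of_mul_right_right hβ).symm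
    have h2 : IsCoprime (m : ℤ) c := by
      obtain ⟨j, rfl⟩ : ∃ j, k = j + 1 := ⟨k - 1, by omega⟩
      have : c = β + m * (-(β * (m : ℤ) ^ j) + 6 * y) := by rw [hc]; ring
      rw [this]
      exact h1.add_mul_left_right _
    push_cast
    exact h2.pow_left
  · rintro ⟨_, h1, h2⟩
    have h3 : Odd ((m : ℤ) ^ k) := by exact_mod_cast h1
    have h4 : Even (1 - (m : ℤ) ^ k) := Odd.sub_odd odd_one h3
    have h5 : Even c := by
      rw [hc]
      refine Even.add (h4.mul_left _) ?_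
      have : Even (6 * (m : ℤ)) := ⟨3 * m, by ring⟩
      exact this.mul_right _
    exact (Int.not_even_iff_odd.2 h2) h5

open Classical in
theorem nt_bound : ∃ C δ : ℝ, 0 < C ∧ 0 < δ ∧ ∀ N : ℕ, 1 ≤ N → ∀ m : ℕ, 2 ≤ m → ∀ β : ℤ,
    IsCoprime β (6 * m) → ∀ n R : ℕ, 1 ≤ R → ∀ L X : Fin n → ℕ, (∀ i, N ≤ L i) →
    ∀ e : Fin 4 → Fin n, StrictMono e →
    (((Fintype.piFinset (fun a => range R ×ˢ range (L (e a)))).filter (fun w => ∀ a b, a < b →
      ∃ y : ℕ, y + m ^ (2 * R * ((e b : ℕ) - e a) + (w b).1 - (w a).1) * (X (e a) + (w a).2) =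
        X (e b) + (w b).2 ∧ ¬ GoodE 1 (m ^ (2 * R * ((e b : ℕ) - e a) + (w b).1 - (w a).1))
          (β * (1 - (m : ℤ) ^ (2 * R * ((e b : ℕ) - e a) + (w b).1 - (w a).1)) + 6 * m * y))).card : ℝ) ≤
      C * (N : ℝ) ^ (-δ) * ∏ a, (((range R ×ˢ range (L (e a))).card : ℕ) : ℝ) := by
  obtain ⟨C, δ, hC, hδ, _, h⟩ := almost_all_pow 4 TwoHit Big hitP_four
  refine ⟨C, δ, hC, hδ, ?_⟩
  intro N hN m hm β hβ n R hR L X hL e he
  obtain ⟨V, hV⟩ : ∃ V : Fin 4 → Finset (ℕ × ℕ), V = fun a => range R ×ˢ range (L (e a)) := ⟨_, rfl⟩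
  obtain ⟨g, hg⟩ : ∃ g : Fin 4 → ℕ × ℕ → ℤ × ℤ, g = fun a => fm m β (2 * R * (e a)) (X (e a)) :=
    ⟨_, rfl⟩
  have hginj : ∀ a, Function.Injective (g a) := fun a => by rw [hg]; exact fm_inj m hm _ _ _
  have hm0 : (0 : ℤ) < m := by exact_mod_cast (by omega : 0 < m)
  have hcard : ∀ a, ((V a).image (g a)).card = (V a).card := fun a =>
    card_image_of_injective _ (hginj a)
  have h1 := h N hN (fun a => (V a).image (g a)) (by
    intro a f hf
    obtain ⟨v, _, rfl⟩ := mem_image.1 hf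
    rw [hg]
    simp only [fm]
    positivity) (by
    intro a
    rw [hcard, hV]
    rw [card_product, card_range, card_range]
    exact (hL (e a)).trans (Nat.le_mul_of_pos_left _ hR))
  simp only [hcard] at h1
  have h2 : ∏ a, (((range R ×ˢ range (L (e a))).card : ℕ) : ℝ) = ∏ a, ((V a).card : ℝ) := by
    rw [hV]
  rw [h2]
  refine le_trans ?_ h1
  rw [Nat.cast_le]
  refine card_le_card_of_injOn (fun w a => g a (w a)) ?_ ?_
  · intro w hw
    rw [mem_coe, mem_filter, Fintype.mem_piFinset] at hw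
    simp only [coe_filter, Set.mem_ofPred_eq, Fintype.mem_piFinset]
    refine ⟨fun a => mem_image_of_mem _ (by rw [hV]; exact hw.1 a), ?_, ?_⟩
    · intro p hp
      have hnd : (p : ℤ) ∣ 6 * m → ∀ a, ¬ (p : ℤ) ∣ (g a (w a)).2 := by
        intro h3 a h4
        rw [hg] at h4
        simp only [fm] at h4
        have h5 : (p : ℤ) ∣ β := by
          have := dvd_sub h4 (Dvd.dvd.mul_right h3 ((X (e a) : ℤ) + (w a).2))
          simpa using this
        have h6 := hβ.isUnit_of_dvd' h5 h3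
        exact (Nat.prime_iff_prime_int.1 hp).not_isUnit h6
      by_cases hp4 : 4 < p
      · obtain ⟨n', hn'⟩ := Pool.Agent.H361R2.exists_avoid' (m := 4) hp hp4
          (fun a => (g a (w a)).1) (fun a => (g a (w a)).2) (by
            rintro a ⟨h3, h4⟩
            have h5 : (p : ℤ) ∣ 6 * m := by
              rw [hg] at h3
              simp only [fm] at h3
              rcases (Nat.prime_iff_prime_int.1 hp).dvd_or_dvd h3 with h6 | h6
              · exact h6
              · exact Dvd.dvd.mul_left ((Nat.prime_iff_prime_int.1 hp).dvd_of_dvd_pow h6) _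
            exact hnd h5 a h4)
        exact ⟨n', hn'⟩
      · refine ⟨0, fun a => ?_⟩
        rw [mul_zero, zero_add]
        apply hnd _ a
        have h3 : p ∣ 6 := by
          have h4 : p = 2 ∨ p = 3 := by
            have := hp.two_le
            rcases (by omega : p = 2 ∨ p = 3 ∨ p = 4) with h5 | h5 | h5
            · exact Or.inl h5
            · exact Or.inr h5
            · rw [h5] at hp; exact absurd hp (by norm_num)
          rcases h4 with h4 | h4 <;> rw [h4] <;> norm_num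
        exact Dvd.dvd.mul_right (by exact_mod_cast h3) _
    · rintro ⟨S, hS1, hS2⟩
      have hS3 : 1 < S.card := hS1
      obtain ⟨i, hi, j, hj, hij⟩ := Finset.one_lt_card.1 hS3
      have key : ∀ a b : Fin 4, a ∈ S → b ∈ S → a < b → False := by
        intro a b ha hb hab
        obtain ⟨y, hy1, hy2⟩ := hw.2 a b hab
        apply hy2
        have hwa := hw.1 a
        have hwb := hw.1 b
        rw [mem_product, mem_range, mem_range] at hwa hwb
        have hee : (e a : ℕ) < e b := he hab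
        have h3 : 2 * R * ((e b : ℕ) - e a) + 2 * R * (e a) = 2 * R * (e b) := by
          rw [← Nat.mul_add]
          congr 1
          omega
        have h4 : 2 * R * 1 ≤ 2 * R * ((e b : ℕ) - e a) := Nat.mul_le_mul_left _ (by omega)
        refine good_of_big m hm β hβ (2 * R * (e a)) (2 * R * (e b)) (X (e a)) (X (e b)) (w a) (w b) _ y
          (by omega) (by omega) hy1 ?_
        refine hS2.mono ?_
        intro n' hn'
        have h5 := hn' a ha
        have h6 := hn' b hb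
        rw [hg] at h5 h6
        exact ⟨h5, h6⟩
      rcases lt_or_gt_of_ne hij with h3 | h3
      · exact key i j hi hj h3
      · exact key j i hj hi h3
  · intro w _ w' _ hww
    funext a
    exact hginj a (congrFun hww a)

end Pool.Agent.U570.AF
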